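import Pool.Agent.KS6_36.PG.G

/-!
# The condition that a core is knotted is open and closed off the self-intersecting polygons

Polygons with `n` sides of lengths `L 0, …, L (n-1)`; the sides number `o, …, o + 4` have the
lengths `24, 3, 4, 3, 24`.
-/

set_option autoImplicit false

namespace Pool.Agent.KS6_36.PG

open Pool.Agent.Results.MP_e82153_gt.Knotted

/-- The length vector of the first `n` members of a sequence. -/
abbrev lv (n : ℕ) (L : ℕ → ℝ) : Fin n → ℝ := fun i => L i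

/-- The vertices from number `o` on. -/
noncomputable def sh {n : ℕ} (L : ℕ → ℝ) (u : Fin n → E3) (o k : ℕ) : E3 :=
  vertex (lv n L) u (o + k)

/-- The sides number `o, …, o + 4` are those of a core. -/
structure CoreAt (n : ℕ) (L : ℕ → ℝ) (o : ℕ) : Prop where
  hn : o + 6 ≤ n
  l0 : L o = 24
  l1 : L (o + 1) = 3
  l2 : L (o + 2) = 4
  l3 : L (o + 3) = 3
  l4 : L (o + 4) = 24

variable {n : ℕ} {L : ℕ → ℝ}

lemma norm_step (hL : ∀ k < n, 0 < L k) (u : ClosedTuple (lv n L)) {k : ℕ} (hk : k < n) :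
    ‖vertex (lv n L) u.1 (k + 1) - vertex (lv n L) u.1 k‖ = L k := by
  have h := vertex_succ (lv n L) u.1 ⟨k, hk⟩
  simp only at h
  rw [h, add_sub_cancel_left, norm_smul, u.2.1 ⟨k, hk⟩, mul_one,
    Real.norm_of_nonneg (hL k hk).le]

lemma far {u : Fin n → E3} (hu : ¬ SelfIntersecting (lv n L) u) {i j : ℕ} (hj : j < n)
    (hij : i + 1 < j) (hi0 : ¬ (i = 0 ∧ j + 1 = n)) : ∀ x, x ∈ segment ℝ (vertex (lv n L) u i)
      (vertex (lv n L) u (i + 1)) → x ∈ segment ℝ (vertex (lv n L) u j)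
      (vertex (lv n L) u (j + 1)) → False := by
  intro x hx hx'
  have hi : i < n := by omega
  refine hu ⟨⟨i, hi⟩, ⟨j, hj⟩, ?_, x, hx, hx', ?_, ?_⟩
  · intro h
    have := congrArg Fin.val h
    simp only at this
    omega
  · rintro ⟨e, -⟩
    simp only at e
    rw [Nat.mod_eq_of_lt (by omega)] at e
    omega
  · rintro ⟨e, -⟩
    simp only at e
    rcases Nat.lt_or_ge (j + 1) n with h | h
    · rw [Nat.mod_eq_of_lt h] at e
      omega
    · have : j + 1 = n := by omega
      rw [this, Nat.mod_self] at e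
      omega

lemma sh_norms {o : ℕ} (hc : CoreAt n L o) (hL : ∀ k < n, 0 < L k) (u : ClosedTuple (lv n L)) :
    ‖sh L u.1 o 0 - sh L u.1 o 1‖ = 24 ∧ ‖sh L u.1 o 2 - sh L u.1 o 1‖ = 3 ∧
    ‖sh L u.1 o 3 - sh L u.1 o 2‖ = 4 ∧ ‖sh L u.1 o 4 - sh L u.1 o 3‖ = 3 ∧
    ‖sh L u.1 o 5 - sh L u.1 o 4‖ = 24 := by
  have hn := hc.hn
  refine ⟨?_, ?_, ?_, ?_, ?_⟩
  · rw [norm_sub_rev]
    exact (norm_step hL u (k := o) (by omega)).trans hc.l0
  · exact (norm_step hL u (k := o + 1) (by omega)).trans hc.l1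
  · exact (norm_step hL u (k := o + 2) (by omega)).trans hc.l2
  · exact (norm_step hL u (k := o + 3) (by omega)).trans hc.l3
  · exact (norm_step hL u (k := o + 4) (by omega)).trans hc.l4

lemma axis_le {o : ℕ} (hc : CoreAt n L o) (hL : ∀ k < n, 0 < L k) (u : ClosedTuple (lv n L)) :
    ‖sh L u.1 o 5 - sh L u.1 o 0‖ ≤ 58 := by
  obtain ⟨h1, h2, h3, h4, h5⟩ := sh_norms hc hL u
  have : sh L u.1 o 5 - sh L u.1 o 0 = -(sh L u.1 o 0 - sh L u.1 o 1)
      + (sh L u.1 o 2 - sh L u.1 o 1) + (sh L u.1 o 3 - sh L u.1 o 2)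
      + (sh L u.1 o 4 - sh L u.1 o 3) + (sh L u.1 o 5 - sh L u.1 o 4) := by abel
  rw [this]
  calc _ ≤ ‖-(sh L u.1 o 0 - sh L u.1 o 1)‖ + ‖sh L u.1 o 2 - sh L u.1 o 1‖
        + ‖sh L u.1 o 3 - sh L u.1 o 2‖ + ‖sh L u.1 o 4 - sh L u.1 o 3‖
        + ‖sh L u.1 o 5 - sh L u.1 o 4‖ := by
        refine (norm_add_le _ _).trans (add_le_add_left ?_ _)
        refine (norm_add_le _ _).trans (add_le_add_left ?_ _)
        exact norm_add₃_le
    _ = 58 := by rw [norm_neg, h1, h2, h3, h4, h5]; norm_num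

lemma Kpos_of_Kcl_at {o : ℕ} (hc : CoreAt n L o) (hL : ∀ k < n, 0 < L k)
    (u : ClosedTuple (lv n L)) (hu : ¬ SelfIntersecting (lv n L) u.1) {z : Fin 8 → ℝ}
    (hz : z ∈ Set.Icc (0 : Fin 8 → ℝ) 1) (hK : Kcl (sh L u.1 o) z) : Kpos (sh L u.1 o) := by
  have hn := hc.hn
  obtain ⟨-, -, h23, -, -⟩ := sh_norms hc hL u
  have ne23 : sh L u.1 o 2 ≠ sh L u.1 o 3 := by
    intro e
    rw [e, sub_self, norm_zero] at h23
    norm_num at h23
  refine Kpos_of_Kcl hz (far hu (i := o) (j := o + 2) (by omega) (by omega) (by omega))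
    (far hu (i := o) (j := o + 3) (by omega) (by omega) (by omega))
    (fun x hx hx' => far hu (i := o + 1) (j := o + 4) (by omega) (by omega) (by omega) x hx' hx)
    (fun x hx hx' => far hu (i := o + 2) (j := o + 4) (by omega) (by omega) (by omega) x hx' hx)
    (far hu (i := o) (j := o + 4) (by omega) (by omega) (by omega)) ?_ ?_ ne23 hK
  · intro h3
    refine hu ⟨⟨o + 1, by omega⟩, ⟨o + 2, by omega⟩, ?_, sh L u.1 o 3, h3,
      right_mem_segment ℝ _ _, ?_, ?_⟩
    · intro h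
      have := congrArg Fin.val h
      simp only at this
      omega
    · rintro ⟨-, e⟩
      exact ne23 e.symm
    · rintro ⟨e, -⟩
      simp only at e
      rw [Nat.mod_eq_of_lt (by omega)] at e
      omega
  · intro h2
    refine hu ⟨⟨o + 2, by omega⟩, ⟨o + 3, by omega⟩, ?_, sh L u.1 o 2,
      left_mem_segment ℝ _ _, h2, ?_, ?_⟩
    · intro h
      have := congrArg Fin.val h
      simp only at this
      omega
    · rintro ⟨-, e⟩
      exact ne23 e
    · rintro ⟨e, -⟩
      simp only at e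
      rw [Nat.mod_eq_of_lt (by omega)] at e
      omega

lemma isOpen_Kpos_at (L : ℕ → ℝ) (o : ℕ) :
    IsOpen {u : ClosedTuple (lv n L) | Kpos (sh L u.1 o)} := by
  have cv := continuous_vertex (lv n L)
  have cd : ∀ a b c d e f : ℕ, Continuous fun u : ClosedTuple (lv n L) =>
      D (sh L u.1 o a - sh L u.1 o b) (sh L u.1 o c - sh L u.1 o d)
        (sh L u.1 o e - sh L u.1 o f) := fun a b c d e f =>
    continuous_D ((cv _).sub (cv _)) ((cv _).sub (cv _)) ((cv _).sub (cv _))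
  have hV : Continuous fun u : ClosedTuple (lv n L) => V (sh L u.1 o) := cd _ _ _ _ _ _
  have hA2 : Continuous fun u : ClosedTuple (lv n L) => A2 (sh L u.1 o) := cd _ _ _ _ _ _
  have hA3 : Continuous fun u : ClosedTuple (lv n L) => A3 (sh L u.1 o) := cd _ _ _ _ _ _
  have hA4 : Continuous fun u : ClosedTuple (lv n L) => A4 (sh L u.1 o) := cd _ _ _ _ _ _
  have hW : Continuous fun u : ClosedTuple (lv n L) => W (sh L u.1 o) := cd _ _ _ _ _ _
  have hB1 : Continuous fun u : ClosedTuple (lv n L) => B1 (sh L u.1 o) := cd _ _ _ _ _ _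
  have hB2 : Continuous fun u : ClosedTuple (lv n L) => B2 (sh L u.1 o) := cd _ _ _ _ _ _
  have hB3 : Continuous fun u : ClosedTuple (lv n L) => B3 (sh L u.1 o) := cd _ _ _ _ _ _
  unfold Kpos
  refine IsOpen.and (IsOpen.and ?_ (IsOpen.and ?_ ?_))
    (IsOpen.and (IsOpen.and ?_ (IsOpen.and ?_ ?_)) ?_)
  · exact isOpen_lt continuous_const (hA2.mul hV)
  · exact isOpen_lt continuous_const (hA3.mul hV)
  · exact isOpen_lt continuous_const (hA4.mul hV)
  · exact isOpen_lt continuous_const (hB1.mul hW)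
  · exact isOpen_lt continuous_const (hB2.mul hW)
  · exact isOpen_lt continuous_const (hB3.mul hW)
  · exact isOpen_lt continuous_const (((hA3.mul hB2).sub (hA2.mul hB3)).mul (hV.mul hW))

lemma isClosed_Kcl_at (L : ℕ → ℝ) (o : ℕ) : IsClosed {u : ClosedTuple (lv n L) |
    ∃ z ∈ Set.Icc (0 : Fin 8 → ℝ) 1, Kcl (sh L u.1 o) z} := by
  have cv := continuous_vertex (lv n L)
  let Z := Set.Icc (0 : Fin 8 → ℝ) 1
  have hS : IsClosed {p : Z × ClosedTuple (lv n L) | Kcl (sh L p.2.1 o) p.1.1} := by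
    have cz : ∀ i : Fin 8, Continuous fun p : Z × ClosedTuple (lv n L) => p.1.1 i := fun i =>
      (continuous_apply i).comp (continuous_subtype_val.comp continuous_fst)
    have cp : ∀ k : ℕ, Continuous fun p : Z × ClosedTuple (lv n L) => sh L p.2.1 o k :=
      fun k => (cv (o + k)).comp continuous_snd
    unfold Kcl
    refine IsClosed.and ?_ (IsClosed.and ?_ (IsClosed.and ?_ (IsClosed.and ?_ ?_)))
    · exact isClosed_eq (((cz 0).add (cz 1)).add (cz 2)) continuous_const
    · exact isClosed_eq (((cz 3).add (cz 4)).add (cz 5)) continuous_const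
    · exact isClosed_eq ((cp 1).add ((cz 6).smul ((cp 0).sub (cp 1))))
        ((((cz 0).smul (cp 2)).add ((cz 1).smul (cp 3))).add ((cz 2).smul (cp 4)))
    · exact isClosed_eq ((cp 4).add ((cz 7).smul ((cp 5).sub (cp 4))))
        ((((cz 3).smul (cp 1)).add ((cz 4).smul (cp 2))).add ((cz 5).smul (cp 3)))
    · exact isClosed_le ((cz 0).mul (cz 5)) ((cz 1).mul (cz 4))
  have := isClosedMap_snd_of_compactSpace _ hS
  convert this using 1
  ext u
  constructor
  · rintro ⟨z, hz, hK⟩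
    exact ⟨(⟨z, hz⟩, u), hK, rfl⟩
  · rintro ⟨⟨z, u'⟩, hK, rfl⟩
    exact ⟨z.1, z.2, hK⟩

/-- The classes of the polygons whose core at `o` is knotted. -/
def KM (n : ℕ) (L : ℕ → ℝ) (o : ℕ) : Set (PolygonSpace (lv n L)) :=
  {q | ∀ u : ClosedTuple (lv n L), Quotient.mk (rotSetoid (lv n L)) u = q → Kpos (sh L u.1 o)}

def CM (n : ℕ) (L : ℕ → ℝ) (o : ℕ) : Set (PolygonSpace (lv n L)) :=
  {q | ∀ u : ClosedTuple (lv n L), Quotient.mk (rotSetoid (lv n L)) u = q →
    ∃ z ∈ Set.Icc (0 : Fin 8 → ℝ) 1, Kcl (sh L u.1 o) z}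

lemma mk_mem_KM {o : ℕ} {u : ClosedTuple (lv n L)} :
    Quotient.mk (rotSetoid (lv n L)) u ∈ KM n L o ↔ Kpos (sh L u.1 o) := by
  constructor
  · intro h
    exact h u rfl
  · intro h v hv
    obtain ⟨g, hg, hg'⟩ : (rotSetoid (lv n L)).r u v := Quotient.exact hv.symm
    exact (Kpos_map _ _ g hg (fun k => vertex_map (lv n L) u.1 g hg' (o + k))).mpr h

lemma mk_mem_CM {o : ℕ} {u : ClosedTuple (lv n L)} :
    Quotient.mk (rotSetoid (lv n L)) u ∈ CM n L o ↔
      ∃ z ∈ Set.Icc (0 : Fin 8 → ℝ) 1, Kcl (sh L u.1 o) z := by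
  constructor
  · intro h
    exact h u rfl
  · rintro ⟨z, hz, hK⟩ v hv
    obtain ⟨g, hg, hg'⟩ : (rotSetoid (lv n L)).r u v := Quotient.exact hv.symm
    exact ⟨z, hz, Kcl_map g (fun k => vertex_map (lv n L) u.1 g hg' (o + k)) hK⟩

lemma isOpen_KM (o : ℕ) : IsOpen (KM n L o) := by
  have : IsOpen ((Quotient.mk (rotSetoid (lv n L))) ⁻¹' KM n L o) := by
    convert isOpen_Kpos_at (n := n) L o using 1
    ext u
    exact mk_mem_KM
  exact this

lemma isClosed_CM (o : ℕ) : IsClosed (CM n L o) := by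
  have : IsClosed ((Quotient.mk (rotSetoid (lv n L))) ⁻¹' CM n L o) := by
    convert isClosed_Kcl_at (n := n) L o using 1
    ext u
    exact mk_mem_CM
  have h2 : IsOpen ((Quotient.mk (rotSetoid (lv n L))) ⁻¹' (CM n L o)ᶜ) := by
    rw [Set.preimage_compl]
    exact this.isOpen_compl
  have h3 : IsOpen (CM n L o)ᶜ := h2
  exact isOpen_compl_iff.mp h3

lemma KM_iff_CM {o : ℕ} (hc : CoreAt n L o) (hL : ∀ k < n, 0 < L k)
    (q : PolygonSpace (lv n L)) (hq : q ∈ (X (lv n L))ᶜ) : q ∈ KM n L o ↔ q ∈ CM n L o := by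
  induction q using Quotient.inductionOn with
  | h u =>
    rw [mk_mem_KM, mk_mem_CM]
    constructor
    · intro h
      obtain ⟨h1, h2, h3, h4, h5⟩ := sh_norms hc hL u
      exact Kcl_of_Kpos h1 h2 h3 h4 h5 h
    · rintro ⟨z, hz, hK⟩
      exact Kpos_of_Kcl_at hc hL u (fun h => hq ((mk_mem_X (lv n L)).mpr h)) hz hK

lemma isClopen_KM {o : ℕ} (hc : CoreAt n L o) (hL : ∀ k < n, 0 < L k) :
    IsClopen {q : ↥(X (lv n L))ᶜ | q.1 ∈ KM n L o} := by
  constructor
  · have : {q : ↥(X (lv n L))ᶜ | q.1 ∈ KM n L o} = {q : ↥(X (lv n L))ᶜ | q.1 ∈ CM n L o} := by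
      ext q
      exact KM_iff_CM hc hL q.1 q.2
    rw [this]
    exact (isClosed_CM o).preimage continuous_subtype_val
  · exact (isOpen_KM o).preimage continuous_subtype_val

/-! ### The comparison of two consecutive cores -/

/-- The comparison of the needles of the cores at `o` and at `o + 6`. -/
noncomputable def Gu {n : ℕ} (L : ℕ → ℝ) (u : Fin n → E3) (o : ℕ) : ℂ :=
  G (sh L u o 5 - sh L u o 0) (sh L u o 6 - sh L u o 5) (sh L u (o + 6) 5 - sh L u (o + 6) 0)
    (sh L u o 1 - sh L u o 0) (sh L u (o + 6) 1 - sh L u (o + 6) 0)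

/-- The same as a function on the polygon space. -/
noncomputable def Gq (n : ℕ) (L : ℕ → ℝ) (o : ℕ) : PolygonSpace (lv n L) → ℂ :=
  Quotient.lift (fun u : ClosedTuple (lv n L) => Gu L u.1 o) (by
    rintro u v ⟨g, hg, hg'⟩
    have h : ∀ k, vertex (lv n L) v.1 k = g (vertex (lv n L) u.1 k) :=
      fun k => vertex_map (lv n L) u.1 g hg' k
    simp only [Gu, sh, h, ← map_sub]
    exact (G_map g hg _ _ _ _ _).symm)

lemma continuous_Gq (o : ℕ) : Continuous (Gq n L o) := by
  have cv := continuous_vertex (lv n L)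
  refine Continuous.quotient_lift ?_ _
  exact continuous_G ((cv _).sub (cv _)) ((cv _).sub (cv _)) ((cv _).sub (cv _))
    ((cv _).sub (cv _)) ((cv _).sub (cv _))

lemma Gq_ne_zero {o : ℕ} (hc : CoreAt n L o) (hc' : CoreAt n L (o + 6)) (hm : 58 ≤ L (o + 5))
    (hL : ∀ k < n, 0 < L k) {q : PolygonSpace (lv n L)} (hX : q ∈ (X (lv n L))ᶜ)
    (h1 : q ∈ KM n L o) (h2 : q ∈ KM n L (o + 6)) : Gq n L o q ≠ 0 := by
  induction q using Quotient.inductionOn with
  | h u =>
    have hu : ¬ SelfIntersecting (lv n L) u.1 := fun h => hX ((mk_mem_X (lv n L)).mpr h)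
    have k1 := mk_mem_KM.mp h1
    have k2 := mk_mem_KM.mp h2
    have hn := hc'.hn
    have e6 : sh L u.1 o 6 = sh L u.1 (o + 6) 0 := rfl
    have hs : ‖sh L u.1 o 6 - sh L u.1 o 5‖ = L (o + 5) := norm_step hL u (by omega)
    have hs0 : sh L u.1 o 6 - sh L u.1 o 5 ≠ 0 := by
      intro h
      rw [h, norm_zero] at hs
      linarith
    have hw := axis_le hc hL u
    have hw' := axis_le hc' hL u
    change Gu L u.1 o ≠ 0
    refine G_ne_zero (Kpos_gram k1) (Kpos_gram k2) hs0 ?_ ?_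
    · intro h
      have hmem := fold_back (Kpos_axis k1) (by rw [hs]; linarith) h
      exact far hu (i := o) (j := o + 5) (by omega) (by omega) (by omega) (sh L u.1 o 0)
        (left_mem_segment ℝ _ _) hmem
    · intro h
      rw [e6] at h hs
      have hmem := fold_back' (Kpos_axis k2) (by rw [hs]; linarith) h
      exact far hu (i := o + 5) (j := o + 10) (by omega) (by omega) (by omega)
        (sh L u.1 (o + 6) 5) hmem (right_mem_segment ℝ _ _)

/-! ### The last core -/

/-- Consecutive sides meet only in their common vertex. -/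
lemma adj_pair {u : Fin n → E3} (hu : ¬ SelfIntersecting (lv n L) u) (hn : 3 ≤ n) {k : ℕ}
    (hk : k + 1 < n) {x : E3} (hx : x ∈ segment ℝ (vertex (lv n L) u k)
      (vertex (lv n L) u (k + 1))) (hx' : x ∈ segment ℝ (vertex (lv n L) u (k + 1))
      (vertex (lv n L) u (k + 1 + 1))) : x = vertex (lv n L) u (k + 1) := by
  by_contra hne
  refine hu ⟨⟨k, by omega⟩, ⟨k + 1, hk⟩, ?_, x, hx, hx', ?_, ?_⟩
  · intro h
    have := congrArg Fin.val h
    simp only at this
    omega
  · rintro ⟨-, e⟩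
    exact hne e
  · rintro ⟨e, -⟩
    simp only at e
    rcases Nat.lt_or_ge (k + 1 + 1) n with h | h
    · rw [Nat.mod_eq_of_lt h] at e
      omega
    · have : k + 1 + 1 = n := by omega
      rw [this, Nat.mod_self] at e
      omega

/-- The comparison of the needle of the core at `o` with the side after the next one. -/
noncomputable def Hu {n : ℕ} (L : ℕ → ℝ) (u : Fin n → E3) (o : ℕ) : ℂ :=
  H (sh L u o 5 - sh L u o 0) (sh L u o 6 - sh L u o 5) (sh L u o 1 - sh L u o 0)
    (sh L u o 7 - sh L u o 6)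

/-- The same as a function on the polygon space. -/
noncomputable def Hq (n : ℕ) (L : ℕ → ℝ) (o : ℕ) : PolygonSpace (lv n L) → ℂ :=
  Quotient.lift (fun u : ClosedTuple (lv n L) => Hu L u.1 o) (by
    rintro u v ⟨g, hg, hg'⟩
    have h : ∀ k, vertex (lv n L) v.1 k = g (vertex (lv n L) u.1 k) :=
      fun k => vertex_map (lv n L) u.1 g hg' k
    simp only [Hu, sh, h, ← map_sub]
    exact (H_map g hg _ _ _ _).symm)

lemma continuous_Hq (o : ℕ) : Continuous (Hq n L o) := by
  have cv := continuous_vertex (lv n L)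
  refine Continuous.quotient_lift ?_ _
  exact continuous_H ((cv _).sub (cv _)) ((cv _).sub (cv _)) ((cv _).sub (cv _))
    ((cv _).sub (cv _))

/-- Triangle inequality along the polygon. -/
lemma norm_vertex_sub_le (hL : ∀ k < n, 0 < L k) (u : ClosedTuple (lv n L)) {c : ℝ} {k : ℕ}
    (m : ℕ) (hk : k + m ≤ n) (hc : ∀ i, k ≤ i → i < k + m → L i ≤ c) :
    ‖vertex (lv n L) u.1 (k + m) - vertex (lv n L) u.1 k‖ ≤ m * c := by
  induction m with
  | zero => simp
  | succ m ih =>
    have h1 := ih (by omega) (fun i h h' => hc i h (by omega))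
    have h2 := norm_step hL u (k := k + m) (by omega)
    have h3 := hc (k + m) (by omega) (by omega)
    have : vertex (lv n L) u.1 (k + (m + 1)) - vertex (lv n L) u.1 k
        = (vertex (lv n L) u.1 (k + m + 1) - vertex (lv n L) u.1 (k + m))
          + (vertex (lv n L) u.1 (k + m) - vertex (lv n L) u.1 k) := by
      rw [← add_assoc]; abel
    rw [this]
    refine (norm_add_le _ _).trans ?_
    rw [h2]
    push_cast
    linarith

lemma Hq_ne_zero {o : ℕ} (hc : CoreAt n L o) (hn : o + 7 ≤ n) (hm : 58 ≤ L (o + 5))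
    (hL : ∀ k < n, 0 < L k) {c : ℝ} (hbig : ((o + 5 : ℕ) : ℝ) * c + (n - (o + 7) : ℕ) * c
      < L (o + 5) + L (o + 6)) (hc1 : ∀ i, i < o + 5 → L i ≤ c)
    (hc2 : ∀ i, o + 7 ≤ i → i < n → L i ≤ c)
    {q : PolygonSpace (lv n L)} (hX : q ∈ (X (lv n L))ᶜ)
    (h1 : q ∈ KM n L o) : Hq n L o q ≠ 0 := by
  induction q using Quotient.inductionOn with
  | h u =>
    have hu : ¬ SelfIntersecting (lv n L) u.1 := fun h => hX ((mk_mem_X (lv n L)).mpr h)
    have k1 := mk_mem_KM.mp h1
    have hs : ‖sh L u.1 o 6 - sh L u.1 o 5‖ = L (o + 5) := norm_step hL u (by omega)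
    have hr : ‖sh L u.1 o 7 - sh L u.1 o 6‖ = L (o + 6) := norm_step hL u (by omega)
    have hs0 : sh L u.1 o 6 - sh L u.1 o 5 ≠ 0 := by
      intro h
      rw [h, norm_zero] at hs
      linarith
    have hr0 : sh L u.1 o 7 - sh L u.1 o 6 ≠ 0 := by
      intro h
      rw [h, norm_zero] at hr
      linarith [hL (o + 6) (by omega)]
    have hw := axis_le hc hL u
    change Hu L u.1 o ≠ 0
    refine H_ne_zero (Kpos_gram k1) (strict_cs ?_ ?_) ?_
    · intro h
      rcases le_total (‖sh L u.1 o 6 - sh L u.1 o 5‖) (‖sh L u.1 o 7 - sh L u.1 o 6‖) with e | e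
      · have hmem := fold_back hs0 e h
        have := adj_pair hu (by omega) (k := o + 5) (by omega) (left_mem_segment ℝ _ _) hmem
        apply hs0
        rw [sub_eq_zero]
        exact this.symm
      · have hmem := fold_back' hr0 e h
        have := adj_pair hu (by omega) (k := o + 5) (by omega) hmem (right_mem_segment ℝ _ _)
        apply hr0
        rw [sub_eq_zero]
        exact this
    · intro h
      have e : sh L u.1 o 6 - sh L u.1 o 5 + (sh L u.1 o 7 - sh L u.1 o 6)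
          = sh L u.1 o 7 - sh L u.1 o 5 := by abel
      rw [e, hs, hr] at h
      have g1 := norm_vertex_sub_le hL u (k := 0) (o + 5) (by omega)
        (fun i _ h' => hc1 i (by omega))
      have g2 := norm_vertex_sub_le hL u (k := o + 7) (n - (o + 7)) (by omega)
        (fun i h h' => hc2 i h (by omega))
      rw [show o + 7 + (n - (o + 7)) = n by omega, vertex_last _ _ u.2.2, zero_sub,
        norm_neg] at g2
      rw [zero_add, vertex_zero, sub_zero] at g1
      have g3 : ‖sh L u.1 o 7 - sh L u.1 o 5‖ ≤ ‖sh L u.1 o 7‖ + ‖sh L u.1 o 5‖ :=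
        norm_sub_le _ _
      have g4 : ‖sh L u.1 o 7‖ ≤ (n - (o + 7) : ℕ) * c := g2
      have g5 : ‖sh L u.1 o 5‖ ≤ ((o + 5 : ℕ) : ℝ) * c := g1
      linarith
    · intro h
      have hmem := fold_back (Kpos_axis k1) (by rw [hs]; linarith) h
      exact far hu (i := o) (j := o + 5) (by omega) (by omega) (by omega) (sh L u.1 o 0)
        (left_mem_segment ℝ _ _) hmem

end Pool.Agent.KS6_36.PG
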