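import Pool.Agent.KS6_36.PG.Poly

/-!
# The polygons of the family are closed polygons without self-intersections
-/

set_option autoImplicit false

namespace Pool.Agent.KS6_36.PG

open Pool.Agent.Results.MP_e82153_gt.Knotted

/-- A closed tuple from a sequence of vertices. -/
noncomputable def mkT (n : ℕ) (L : ℕ → ℝ) (P : ℕ → E3) (h0 : P 0 = 0) (hn : P n = 0)
    (hL : ∀ k < n, 0 < L k) (hN : ∀ k < n, ‖P (k + 1) - P k‖ = L k) : ClosedTuple (lv n L) :=
  ⟨fun i => (L i)⁻¹ • (P (i + 1) - P i), by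
    constructor
    · intro i
      rw [norm_smul, hN i i.2, norm_inv, Real.norm_of_nonneg (hL i i.2).le,
        inv_mul_cancel₀ (hL i i.2).ne']
    · have : ∀ i : Fin n, lv n L i • (L i)⁻¹ • (P (i + 1) - P i) = P (i + 1) - P i :=
        fun i => by rw [smul_smul, mul_inv_cancel₀ (hL i i.2).ne', one_smul]
      simp only [this]
      rw [Fin.sum_univ_eq_sum_range (fun k => P (k + 1) - P k) n, Finset.sum_range_sub, h0, hn,
        sub_zero]⟩

lemma vertex_mkT {n : ℕ} {L : ℕ → ℝ} {P : ℕ → E3} (h0 : P 0 = 0) (hn : P n = 0)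
    (hL : ∀ k < n, 0 < L k) (hN : ∀ k < n, ‖P (k + 1) - P k‖ = L k) {k : ℕ} (hk : k ≤ n) :
    vertex (lv n L) (mkT n L P h0 hn hL hN).1 k = P k := by
  induction k with
  | zero => rw [vertex_zero, h0]
  | succ k ih =>
    have h := vertex_succ (lv n L) (mkT n L P h0 hn hL hN).1 ⟨k, by omega⟩
    simp only at h
    rw [h, ih (by omega)]
    have e : lv n L ⟨k, by omega⟩ • (mkT n L P h0 hn hL hN).1 ⟨k, by omega⟩
        = L k • (L k)⁻¹ • (P (k + 1) - P k) := rfl
    rw [e, smul_smul, mul_inv_cancel₀ (hL k (by omega)).ne', one_smul]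
    abel

/-! ### A single core -/

/-- In the polygon of the library the sides of the core meet only in the common vertices. -/
lemma lib_core {i i' : ℕ} (hi : i < i') (hi' : i' ≤ 4) {x : E3}
    (hx : x ∈ segment ℝ (Q 1 0 i) (Q 1 0 (i + 1)))
    (hx' : x ∈ segment ℝ (Q 1 0 i') (Q 1 0 (i' + 1))) : i' = i + 1 ∧ x = Q 1 0 i' := by
  have h : (1 : ℝ) ^ 2 + 0 ^ 2 = 1 := by norm_num
  by_contra hc
  apply tup_embedded h
  refine ⟨⟨i, by omega⟩, ⟨i', by omega⟩, ?_, x, ?_, ?_, ?_, ?_⟩
  · intro e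
    have := congrArg Fin.val e
    simp only at this
    omega
  · change x ∈ segment ℝ (vertex L7 (tup 1 0 h).1 i) (vertex L7 (tup 1 0 h).1 (i + 1))
    rw [vertex_tup h _ (by omega), vertex_tup h _ (by omega)]
    exact hx
  · change x ∈ segment ℝ (vertex L7 (tup 1 0 h).1 i') (vertex L7 (tup 1 0 h).1 (i' + 1))
    rw [vertex_tup h _ (by omega), vertex_tup h _ (by omega)]
    exact hx'
  · rintro ⟨e1, e2⟩
    simp only at e1
    rw [Nat.mod_eq_of_lt (by omega)] at e1
    change x = vertex L7 (tup 1 0 h).1 (i + 1) at e2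
    rw [vertex_tup h _ (by omega)] at e2
    exact hc ⟨e1, by rw [e1]; exact e2⟩
  · rintro ⟨e1, -⟩
    simp only at e1
    rw [Nat.mod_eq_of_lt (by omega)] at e1
    omega

/-- The affine change of coordinates from a turned core to the coordinates of the library. -/
noncomputable def Fm (c : ℂ) (h0 : ℝ) (x : E3) : E3 :=
  !₂[c.re * x 0 + c.im * x 1,
    (15 * (-(c.im * x 0) + c.re * x 1) - 8 * (x 2 - h0)) / 17,
    (8 * (-(c.im * x 0) + c.re * x 1) + 15 * (x 2 - h0)) / 17]

lemma Fm_segment (c : ℂ) (h0 : ℝ) {p q x : E3} (hx : x ∈ segment ℝ p q) :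
    Fm c h0 x ∈ segment ℝ (Fm c h0 p) (Fm c h0 q) := by
  obtain ⟨α, β, hα, hβ, hab, rfl⟩ := hx
  refine ⟨α, β, hα, hβ, hab, ?_⟩
  ext i
  fin_cases i
  · simp [Fm]
    ring
  · simp [Fm]
    linear_combination (8 * h0 / 17) * hab
  · simp [Fm]
    linear_combination (-15 * h0 / 17) * hab

lemma Fm_inj {c : ℂ} (hc : ‖c‖ = 1) (h0 : ℝ) {x y : E3} (h : Fm c h0 x = Fm c h0 y) : x = y := by
  have h2 : c.re * c.re + c.im * c.im = 1 := by
    have := Complex.normSq_eq_norm_sq c
    rw [hc, Complex.normSq_apply] at this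
    linarith
  have e0 := congrArg (fun z : E3 => z 0) h
  have e1 := congrArg (fun z : E3 => z 1) h
  have e2 := congrArg (fun z : E3 => z 2) h
  simp [Fm] at e0 e1 e2
  have a2 : x 2 = y 2 := by linarith
  have a1 : -(c.im * x 0) + c.re * x 1 = -(c.im * y 0) + c.re * y 1 := by linarith
  ext i
  fin_cases i
  · change x 0 = y 0
    linear_combination (y 0 - x 0) * h2 + c.re * e0 - c.im * a1
  · change x 1 = y 1
    linear_combination (y 1 - x 1) * h2 + c.im * e0 + c.re * a1
  · exact a2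

lemma Fm_pt {c : ℂ} (hc : ‖c‖ = 1) (h0 : ℝ) {i : ℕ} (hi : i ≤ 5) :
    Fm c h0 (pt (c * zt i) (h0 + ht i)) = Q 1 0 i := by
  have h2 : c.re * c.re + c.im * c.im = 1 := by
    have := Complex.normSq_eq_norm_sq c
    rw [hc, Complex.normSq_apply] at this
    linarith
  have g0 : c.re * (pt (c * zt i) (h0 + ht i) 0) + c.im * (pt (c * zt i) (h0 + ht i) 1)
      = (zt i).re := by
    rw [pt_0, pt_1, Complex.mul_re, Complex.mul_im]
    linear_combination (zt i).re * h2
  have g1 : -(c.im * (pt (c * zt i) (h0 + ht i) 0)) + c.re * (pt (c * zt i) (h0 + ht i) 1)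
      = (zt i).im := by
    rw [pt_0, pt_1, Complex.mul_re, Complex.mul_im]
    linear_combination (zt i).im * h2
  unfold Fm
  rw [g0, g1, pt_2, add_sub_cancel_left]
  interval_cases i <;> ext k <;> fin_cases k <;> simp [zt, ht, Q] <;> norm_num

lemma core_pair {c : ℂ} (hc : ‖c‖ = 1) (h0 : ℝ) {i i' : ℕ} (hi : i < i') (hi' : i' ≤ 4) {x : E3}
    (hx : x ∈ segment ℝ (pt (c * zt i) (h0 + ht i)) (pt (c * zt (i + 1)) (h0 + ht (i + 1))))
    (hx' : x ∈ segment ℝ (pt (c * zt i') (h0 + ht i'))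
      (pt (c * zt (i' + 1)) (h0 + ht (i' + 1)))) :
    i' = i + 1 ∧ x = pt (c * zt i') (h0 + ht i') := by
  have h1 := Fm_segment c h0 hx
  have h2 := Fm_segment c h0 hx'
  rw [Fm_pt hc h0 (by omega), Fm_pt hc h0 (by omega)] at h1 h2
  obtain ⟨e1, e2⟩ := lib_core hi hi' h1 h2
  refine ⟨e1, Fm_inj hc h0 ?_⟩
  rw [e2, Fm_pt hc h0 (by omega)]

/-! ### Coordinates of the vertices -/

section

variable {M n : ℕ} {t : ℕ → ℂ}

lemma ht_bounds {i : ℕ} (hi : i < 6) : (0 ≤ ht i ∧ ht i ≤ 34) ∧ (i ≠ 0 → 0 < ht i) ∧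
    (i ≠ 5 → ht i < 34) := by
  interval_cases i <;> simp only [ht] <;> norm_num

lemma zt_norm_lt {i : ℕ} (hi : i < 6) (r : ℝ) (hr : 0 ≤ r) (h : Complex.normSq (zt i) < r ^ 2) :
    ‖zt i‖ < r := by
  rw [Complex.normSq_eq_norm_sq] at h
  exact (pow_lt_pow_iff_left₀ (norm_nonneg _) hr two_ne_zero).mp h

/-- The core is contained in the two cones of half angle `π / 4` at the ends of its axis. -/
lemma cone {i : ℕ} (hi : i < 6) : ‖zt i‖ < 17 ∧ (i ≠ 0 → ‖zt i‖ < ht i) ∧
    (i ≠ 5 → ‖zt i‖ < 34 - ht i) := by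
  refine ⟨zt_norm_lt hi _ (by norm_num) ?_, fun h => zt_norm_lt hi _ (ht_bounds hi).1.1 ?_,
    fun h => zt_norm_lt hi _ (by linarith [(ht_bounds hi).1.2]) ?_⟩
  · interval_cases i <;> simp only [zt, Complex.normSq_apply] <;> norm_num
  · interval_cases i
    · exact absurd rfl h
    all_goals simp only [zt, ht, Complex.normSq_apply] <;> norm_num
  · interval_cases i
    iterate 5 simp only [zt, ht, Complex.normSq_apply] <;> norm_num
    exact absurd rfl h

lemma Vx_core_2 {j i : ℕ} (hj : j ≤ M) (hi : i < 6) :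
    Vx M n t (6 * j + i) 2 = 100 * j + ht i := by
  rw [Vx_core hj hi, pt_2]

lemma im_lt (ht1 : ∀ j, ‖t j‖ = 1) {i j : ℕ} {r : ℝ} (h : ‖zt i‖ < r) :
    (t j * zt i).im < r := by
  calc (t j * zt i).im ≤ |(t j * zt i).im| := le_abs_self _
    _ ≤ ‖t j * zt i‖ := Complex.abs_im_le_norm _
    _ = ‖zt i‖ := by rw [norm_mul, ht1 j, one_mul]
    _ < r := h

/-- All vertices of the cores except the first one are on one side of a plane through the first
one. -/
lemma core_sep (ht1 : ∀ j, ‖t j‖ = 1) {k : ℕ} (hk : 1 ≤ k) (hk' : k ≤ 6 * M + 5) :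
    Vx M n t k 1 < Vx M n t k 2 := by
  obtain ⟨j, i, hi, rfl⟩ : ∃ j i, i < 6 ∧ k = 6 * j + i :=
    ⟨k / 6, k % 6, Nat.mod_lt _ (by norm_num), by omega⟩
  rw [Vx_core (by omega) hi, pt_1, pt_2]
  obtain ⟨c1, c2, c3⟩ := cone hi
  by_cases hj : j = 0
  · subst hj
    have := im_lt ht1 (j := 0) (c2 (by omega))
    push_cast
    linarith
  · have := im_lt ht1 (j := j) c1
    have h1 : (1 : ℝ) ≤ j := by exact_mod_cast (by omega : 1 ≤ j)
    linarith [(ht_bounds hi).1.1]

/-- The same for the last vertex. -/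
lemma core_sep' (ht1 : ∀ j, ‖t j‖ = 1) {k : ℕ} (hk' : k ≤ 6 * M + 4) :
    Vx M n t k 1 < BB M - Vx M n t k 2 := by
  obtain ⟨j, i, hi, rfl⟩ : ∃ j i, i < 6 ∧ k = 6 * j + i :=
    ⟨k / 6, k % 6, Nat.mod_lt _ (by norm_num), by omega⟩
  rw [Vx_core (by omega) hi, pt_1, pt_2]
  obtain ⟨c1, c2, c3⟩ := cone hi
  unfold BB
  by_cases hj : j = M
  · subst hj
    have := im_lt ht1 (j := j) (c3 (by omega))
    linarith
  · have := im_lt ht1 (j := j) c1
    have h1 : (j : ℝ) + 1 ≤ M := by exact_mod_cast (by omega : j + 1 ≤ M)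
    linarith [(ht_bounds hi).1.2]

lemma core_nonneg {k : ℕ} (hk : k ≤ 6 * M + 5) : 0 ≤ Vx M n t k 2 := by
  obtain ⟨j, i, hi, rfl⟩ : ∃ j i, i < 6 ∧ k = 6 * j + i :=
    ⟨k / 6, k % 6, Nat.mod_lt _ (by norm_num), by omega⟩
  rw [Vx_core_2 (by omega) hi]
  have h1 : (0 : ℝ) ≤ j := Nat.cast_nonneg j
  linarith [(ht_bounds hi).1.1]

lemma core_le {k : ℕ} (hk : k ≤ 6 * M + 4) : Vx M n t k 2 < BB M := by
  obtain ⟨j, i, hi, rfl⟩ : ∃ j i, i < 6 ∧ k = 6 * j + i :=
    ⟨k / 6, k % 6, Nat.mod_lt _ (by norm_num), by omega⟩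
  rw [Vx_core_2 (by omega) hi]
  unfold BB
  by_cases hj : j = M
  · subst hj
    linarith [(ht_bounds hi).2.2 (by omega)]
  · have h1 : (j : ℝ) + 1 ≤ M := by exact_mod_cast (by omega : j + 1 ≤ M)
    linarith [(ht_bounds hi).1.2]

/-- The vertices on the axis. -/
def IsCut (M k : ℕ) : Prop := ∃ j ≤ M, k = 6 * j + 0 ∨ k = 6 * j + 5

lemma below {k m : ℕ} (hk : IsCut M k) (hm : m < k) : Vx M n t m 2 < Vx M n t k 2 := by
  obtain ⟨j, hj, hk⟩ := hk
  obtain ⟨j', i, hi, rfl⟩ : ∃ j' i, i < 6 ∧ m = 6 * j' + i :=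
    ⟨m / 6, m % 6, Nat.mod_lt _ (by norm_num), by omega⟩
  have hb := ht_bounds hi
  rcases hk with rfl | rfl
  · rw [Vx_core_2 hj (by omega), Vx_core_2 (by omega) hi]
    have hjj : (j' : ℝ) + 1 ≤ j := by exact_mod_cast (by omega : j' + 1 ≤ j)
    have h0 : ht 0 = 0 := rfl
    linarith [hb.1.2]
  · rw [Vx_core_2 hj (by omega), Vx_core_2 (by omega) hi]
    have h5 : ht 5 = 34 := rfl
    rcases Nat.lt_or_ge j' j with h | h
    · have hjj : (j' : ℝ) + 1 ≤ j := by exact_mod_cast h
      linarith [hb.1.2]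
    · have : j' = j := by omega
      subst this
      have := hb.2.2 (by omega)
      linarith

lemma above {k m : ℕ} (hk : IsCut M k) (hm : k < m) (hm' : m ≤ 6 * M + 5) :
    Vx M n t k 2 < Vx M n t m 2 := by
  obtain ⟨j, hj, hk⟩ := hk
  obtain ⟨j', i, hi, rfl⟩ : ∃ j' i, i < 6 ∧ m = 6 * j' + i :=
    ⟨m / 6, m % 6, Nat.mod_lt _ (by norm_num), by omega⟩
  have hb := ht_bounds hi
  rcases hk with rfl | rfl
  · rw [Vx_core_2 hj (by omega), Vx_core_2 (by omega) hi]
    have h0 : ht 0 = 0 := rfl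
    rcases Nat.lt_or_ge j j' with h | h
    · have hjj : (j : ℝ) + 1 ≤ j' := by exact_mod_cast h
      linarith [hb.1.1]
    · have : j' = j := by omega
      subst this
      have := hb.2.1 (by omega)
      linarith
  · rw [Vx_core_2 hj (by omega), Vx_core_2 (by omega) hi]
    have h5 : ht 5 = 34 := rfl
    have hjj : (j : ℝ) + 1 ≤ j' := by exact_mod_cast (by omega : j + 1 ≤ j')
    linarith [hb.1.1]

lemma top_2 : Vx M n t (6 * M + 5) 2 = BB M := by
  rw [Vx_core_2 le_rfl (by omega)]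
  unfold BB
  have h5 : ht 5 = 34 := rfl
  rw [h5]
  ring

lemma top_1 : Vx M n t (6 * M + 5) 1 = 0 := by
  rw [Vx_core le_rfl (by omega)]
  simp [zt]

/-- The sides of the cores and between the cores. -/
lemma near_pair (ht1 : ∀ j, ‖t j‖ = 1) {a b : ℕ} (hab : a < b)
    (hb : b ≤ 6 * M + 4) {x : E3} (hx : x ∈ segment ℝ (Vx M n t a) (Vx M n t (a + 1)))
    (hx' : x ∈ segment ℝ (Vx M n t b) (Vx M n t (b + 1))) : b = a + 1 ∧ x = Vx M n t b := by
  by_cases hcut : ∃ k, IsCut M k ∧ a < k ∧ k ≤ b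
  · obtain ⟨k, hk, hak, hkb⟩ := hcut
    have s3 : Vx M n t k 2 ≤ Vx M n t b 2 := by
      rcases hkb.eq_or_lt with e | e
      · rw [e]
      · exact (above hk e (by omega)).le
    have s4 : Vx M n t k 2 < Vx M n t (b + 1) 2 := above hk (by omega) (by omega)
    have s1 := below (n := n) (t := t) hk hak
    rcases Nat.lt_or_ge (a + 1) k with h1 | h1
    · exfalso
      have s2 := below (n := n) (t := t) hk h1
      exact sep 0 0 (-1) (Vx M n t k 2) hx' hx (by simp [aff]; linarith) (by simp [aff]; linarith)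
        (by simp [aff]; linarith) (by simp [aff]; linarith)
    · have hk1 : a + 1 = k := by omega
      rcases hkb.eq_or_lt with e | e
      · subst e
        refine ⟨hk1.symm, ?_⟩
        rw [hk1] at hx
        rw [segment_symm] at hx hx'
        exact sep_adj 0 0 (-1) (Vx M n t k 2) hx' hx (by simp [aff]; linarith)
          (by simp [aff]) (by simp [aff]; linarith)
      · exfalso
        rw [hk1] at hx
        have s5 := above (n := n) (t := t) hk e (by omega)
        exact sep 0 0 1 (-(Vx M n t k 2)) hx hx' (by simp [aff]; linarith) (by simp [aff])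
          (by simp [aff]; linarith) (by simp [aff]; linarith)
  · -- both sides belong to the same core
    obtain ⟨j, i, hi, rfl⟩ : ∃ j i, i < 6 ∧ a = 6 * j + i :=
      ⟨a / 6, a % 6, Nat.mod_lt _ (by norm_num), by omega⟩
    have hi5 : i ≠ 5 := by
      intro h
      subst h
      exact hcut ⟨6 * (j + 1) + 0, ⟨j + 1, by omega, Or.inl rfl⟩, by omega, by omega⟩
    have hb5 : b < 6 * j + 5 := by
      by_contra h
      exact hcut ⟨6 * j + 5, ⟨j, by omega, Or.inr rfl⟩, by omega, by omega⟩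
    obtain ⟨i', rfl⟩ : ∃ i', b = 6 * j + i' := ⟨b - 6 * j, by omega⟩
    have hj : j ≤ M := by omega
    have e1 : Vx M n t (6 * j + i + 1) = Vx M n t (6 * j + (i + 1)) := rfl
    have e2 : Vx M n t (6 * j + i' + 1) = Vx M n t (6 * j + (i' + 1)) := rfl
    rw [e1, Vx_core hj hi, Vx_core hj (by omega)] at hx
    rw [e2, Vx_core hj (by omega), Vx_core hj (by omega)] at hx'
    obtain ⟨f1, f2⟩ := core_pair (ht1 j) _ (by omega) (by omega) hx hx'
    exact ⟨by omega, by rw [f2, Vx_core hj (by omega)]⟩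

/-! ### The closing sides -/

lemma far_1 {k : ℕ} (hk : 6 * M + 6 ≤ k) : Vx M n t k 1 = yf M n k := by
  rw [Vx_far hk]
  rfl

lemma far_2 {k : ℕ} (hk : 6 * M + 6 ≤ k) : Vx M n t k 2 = 0 := by
  rw [Vx_far hk]
  rfl

/-- The second coordinate decreases along the closing sides. -/
lemma yf_anti {k k' : ℕ} (hk : 6 * M + 6 ≤ k) (h : k < k') : yf M n k' < yf M n k := by
  have hkk : (k : ℝ) < k' := by exact_mod_cast h
  rcases hk.eq_or_lt with e | e
  · rw [← e, yf_U, yf_far (by omega)]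
    have h1 := @YY_ge M n
    have h2 : (0 : ℝ) ≤ n := Nat.cast_nonneg n
    have h3 : (1 : ℝ) ≤ k' := by exact_mod_cast (by omega : 1 ≤ k')
    linarith
  · rw [yf_far (by omega), yf_far (by omega)]
    linarith

lemma yf_pos {k : ℕ} (hk : 6 * M + 6 ≤ k) (hk' : k < n) : 0 < yf M n k := by
  have := yf_anti (M := M) (n := n) hk hk'
  rw [yf_far (k := n) (by omega), sub_self] at this
  exact this

/-- All pairs of sides. -/
lemma all_pairs (hn : 6 * M + 7 ≤ n) (ht1 : ∀ j, ‖t j‖ = 1) {a b : ℕ} (hab : a < b)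
    (hb : b < n) {x : E3} (hx : x ∈ segment ℝ (Vx M n t a) (Vx M n t (a + 1)))
    (hx' : x ∈ segment ℝ (Vx M n t b) (Vx M n t (b + 1))) :
    (b = a + 1 ∧ x = Vx M n t b) ∨ (a = 0 ∧ b + 1 = n ∧ x = Vx M n t n) := by
  have hY : 0 < YY M n := by
    have := yf_pos (M := M) (n := n) le_rfl (by omega)
    rwa [yf_U] at this
  have hBp : 34 ≤ BB M := BB_ge
  have hYB : BB M ≤ YY M n := by
    unfold YY
    have : (7 : ℝ) ≤ n := by exact_mod_cast (by omega : 7 ≤ n)
    nlinarith
  rcases Nat.lt_or_ge b (6 * M + 5) with hb' | hb'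
  · left
    exact near_pair ht1 hab (by omega) hx hx'
  rcases hb'.eq_or_lt with hb5 | hb6
  · -- the side from the last core to the far vertex
    left
    subst hb5
    have q1 := @top_1 M n t
    have q2 := @top_2 M n t
    have r1 := @far_1 M n t (6 * M + 6) le_rfl
    have r2 := @far_2 M n t (6 * M + 6) le_rfl
    rw [yf_U] at r1
    have e6 : Vx M n t (6 * M + 5 + 1) = Vx M n t (6 * M + 6) := rfl
    rw [e6] at hx'
    have key : ∀ k, k ≤ 6 * M + 4 → 0 < aff 0 (-(BB M)) (-(YY M n)) (BB M * YY M n)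
        (Vx M n t k) := by
      intro k hk
      have g1 := core_sep' (M := M) (n := n) ht1 hk
      have g2 := core_le (M := M) (n := n) (t := t) hk
      simp only [aff]
      have g3 : BB M * Vx M n t k 1 < BB M * (BB M - Vx M n t k 2) :=
        mul_lt_mul_of_pos_left g1 (by linarith)
      have g4 : BB M * (BB M - Vx M n t k 2) ≤ YY M n * (BB M - Vx M n t k 2) :=
        mul_le_mul_of_nonneg_right hYB (by linarith)
      linarith
    have k5 : aff 0 (-(BB M)) (-(YY M n)) (BB M * YY M n) (Vx M n t (6 * M + 5)) = 0 := by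
      simp only [aff]
      rw [q1, q2]; ring
    have k6 : aff 0 (-(BB M)) (-(YY M n)) (BB M * YY M n) (Vx M n t (6 * M + 6)) = 0 := by
      simp only [aff]
      rw [r1, r2]; ring
    rcases Nat.lt_or_ge (a + 1) (6 * M + 5) with h | h
    · exfalso
      exact sep _ _ _ _ hx' hx k5.le k6.le (key a (by omega)) (key (a + 1) (by omega))
    · have e : a + 1 = 6 * M + 5 := by omega
      refine ⟨e.symm, ?_⟩
      rw [e] at hx
      rw [segment_symm] at hx hx'
      exact sep_adj _ _ _ _ hx' hx k6.le k5 (key a (by omega))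
  -- the closing sides
  have hb7 : 6 * M + 6 ≤ b := by omega
  have c1 := @far_1 M n t b hb7
  have c2 := @far_2 M n t b hb7
  have c3 := @far_1 M n t (b + 1) (by omega)
  have c4 := @far_2 M n t (b + 1) (by omega)
  have c5 := yf_pos (M := M) (n := n) hb7 hb
  rcases Nat.lt_or_ge a (6 * M + 5) with ha' | ha'
  · -- `a` is a side of or between cores
    have w1 := core_nonneg (M := M) (n := n) (t := t) (k := a) (by omega)
    have w2 := core_sep (M := M) (n := n) ht1 (k := a + 1) (by omega) (by omega)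
    have w0 : Vx M n t a 1 ≤ Vx M n t a 2 := by
      rcases Nat.eq_zero_or_pos a with e | e
      · rw [e, Vx_zero]
        exact le_rfl
      · exact (core_sep ht1 e (by omega)).le
    rcases Nat.lt_or_ge (b + 1) n with h | h
    · exfalso
      have y2 := yf_pos (M := M) (n := n) (k := b + 1) (by omega) h
      refine sep 0 1 (-1) 0 hx hx' ?_ ?_ ?_ ?_
      · simp only [aff]; linarith
      · simp only [aff]; linarith
      · simp only [aff]; linarith
      · simp only [aff]; linarith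
    · have e : b + 1 = n := by omega
      rw [e, Vx_last hn] at hx'
      rcases Nat.eq_zero_or_pos a with e0 | e0
      · right
        subst e0
        refine ⟨rfl, e, ?_⟩
        rw [Vx_zero] at hx
        rw [Vx_last hn]
        refine sep_adj 0 (-1) 1 0 hx' hx ?_ ?_ ?_
        · simp only [aff]; linarith
        · simp [aff]
        · simp only [aff]; linarith
      · exfalso
        have w3 := core_sep (M := M) (n := n) ht1 (k := a) e0 (by omega)
        refine sep 0 (-1) 1 0 hx' hx ?_ ?_ ?_ ?_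
        · simp only [aff]; linarith
        · simp [aff]
        · simp only [aff]; linarith
        · simp only [aff]; linarith
  rcases ha'.eq_or_lt with ha5 | ha6
  · -- `a` is the side from the last core to the far vertex
    left
    subst ha5
    have q1 := @top_1 M n t
    have q2 := @top_2 M n t
    have r1 := @far_1 M n t (6 * M + 6) le_rfl
    have r2 := @far_2 M n t (6 * M + 6) le_rfl
    rw [yf_U] at r1
    have e6 : Vx M n t (6 * M + 5 + 1) = Vx M n t (6 * M + 6) := rfl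
    rcases Nat.lt_or_ge b (6 * M + 7) with h | h
    · have e : b = 6 * M + 6 := by omega
      subst e
      refine ⟨rfl, ?_⟩
      rw [e6, segment_symm] at hx
      rw [segment_symm] at hx'
      refine sep_adj 0 0 1 0 hx' hx ?_ ?_ ?_
      · simp only [aff]; linarith
      · simp only [aff]; linarith
      · simp only [aff]; linarith
    · exfalso
      have y1 := yf_anti (M := M) (n := n) (k := 6 * M + 6) (k' := b) le_rfl (by omega)
      have y2 := yf_anti (M := M) (n := n) (k := 6 * M + 6) (k' := b + 1) le_rfl (by omega)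
      rw [yf_U] at y1 y2
      rw [e6] at hx
      refine sep 0 (-(BB M)) (-(YY M n)) (BB M * YY M n) hx hx' ?_ ?_ ?_ ?_
      · simp only [aff]; rw [q1, q2]; linarith
      · simp only [aff]; rw [r1, r2]; linarith
      · simp only [aff]; rw [c1, c2]; nlinarith
      · simp only [aff]; rw [c3, c4]; nlinarith
  · -- two closing sides
    left
    have d1 := @far_1 M n t a (by omega)
    have d3 := @far_1 M n t (a + 1) (by omega)
    have z1 := yf_anti (M := M) (n := n) (k := a) (k' := a + 1) (by omega) (by omega)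
    have z2 := yf_anti (M := M) (n := n) (k := b) (k' := b + 1) (by omega) (by omega)
    rcases Nat.lt_or_ge (a + 1) b with h | h
    · exfalso
      have z3 := yf_anti (M := M) (n := n) (k := a + 1) (k' := b) (by omega) h
      refine sep 0 1 0 (-(yf M n b)) hx' hx ?_ ?_ ?_ ?_
      · simp only [aff]; linarith
      · simp only [aff]; linarith
      · simp only [aff]; linarith
      · simp only [aff]; linarith
    · have e : b = a + 1 := by omega
      subst e
      refine ⟨rfl, ?_⟩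
      rw [segment_symm] at hx hx'
      refine sep_adj 0 1 0 (-(yf M n (a + 1))) hx' hx ?_ ?_ ?_
      · simp only [aff]; linarith
      · simp only [aff]; linarith
      · simp only [aff]; linarith

/-- The closed tuple. -/
noncomputable def tu (M n : ℕ) (hn : 6 * M + 7 ≤ n) (t : ℕ → ℂ) (ht1 : ∀ j, ‖t j‖ = 1) :
    ClosedTuple (lv n (LL M n)) :=
  mkT n (LL M n) (Vx M n t) Vx_zero (Vx_last hn) (LL_pos hn) (fun _ hk => norm_Vx hn ht1 hk)

lemma vertex_tu (hn : 6 * M + 7 ≤ n) (ht1 : ∀ j, ‖t j‖ = 1) {k : ℕ} (hk : k ≤ n) :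
    vertex (lv n (LL M n)) (tu M n hn t ht1).1 k = Vx M n t k :=
  vertex_mkT _ _ _ _ hk

lemma tu_embedded (hn : 6 * M + 7 ≤ n) (ht1 : ∀ j, ‖t j‖ = 1) :
    ¬ SelfIntersecting (lv n (LL M n)) (tu M n hn t ht1).1 := by
  apply not_self_of
  intro i j hij x hi hj
  have hij' : (i : ℕ) < j := hij
  rw [side, vertex_tu hn ht1 (by omega), vertex_tu hn ht1 (by omega)] at hi hj
  rw [vertex_tu hn ht1 (by omega), vertex_tu hn ht1 (by omega)]
  rcases all_pairs hn ht1 hij' j.2 hi hj with ⟨e1, e2⟩ | ⟨e1, e2, e3⟩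
  · left
    refine ⟨?_, ?_⟩
    · rw [Nat.mod_eq_of_lt (by omega)]
      exact e1
    · rw [e2, e1]
  · right
    refine ⟨?_, ?_⟩
    · rw [e2, Nat.mod_self]
      exact e1
    · rw [e2]
      exact e3

end

end Pool.Agent.KS6_36.PG
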