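import Pool.Agent.KS6_36.PG.Emb

/-!
# The torus of polygons in the complement of the self-intersecting ones
-/

set_option autoImplicit false

namespace Pool.Agent.KS6_36.PG

open Pool.Agent.Results.MP_e82153_gt.Knotted

/-! ### Computations along the axis -/

lemma D_rot {c : ℂ} (hc : ‖c‖ = 1) (z1 z2 z3 : ℂ) (h1 h2 h3 : ℝ) :
    D (pt (c * z1) h1) (pt (c * z2) h2) (pt (c * z3) h3) = D (pt z1 h1) (pt z2 h2) (pt z3 h3) := by
  have hc2 : c.re * c.re + c.im * c.im = 1 := by
    have := Complex.normSq_eq_norm_sq c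
    rw [hc, Complex.normSq_apply] at this
    linarith
  simp only [D, pt_0, pt_1, pt_2, Complex.mul_re, Complex.mul_im]
  linear_combination (h3 * (z1.re * z2.im - z1.im * z2.re) - h2 * (z1.re * z3.im - z1.im * z3.re)
    + h1 * (z2.re * z3.im - z2.im * z3.re)) * hc2

lemma Kpos_pt {c : ℂ} (hc : ‖c‖ = 1) (h0 : ℝ) {P : ℕ → E3}
    (hP : ∀ i ≤ 5, P i = pt (c * zt i) (h0 + ht i)) : Kpos P := by
  have e : ∀ i j, i ≤ 5 → j ≤ 5 → P i - P j = pt (c * (zt i - zt j)) (ht i - ht j) := by
    intro i j hi hj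
    rw [hP i hi, hP j hj, pt_sub, ← mul_sub]
    congr 1
    ring
  unfold Kpos A2 A3 A4 B1 B2 B3 V W
  rw [e 2 1 (by norm_num) (by norm_num), e 3 1 (by norm_num) (by norm_num),
    e 4 1 (by norm_num) (by norm_num), e 0 1 (by norm_num) (by norm_num),
    e 1 4 (by norm_num) (by norm_num), e 2 4 (by norm_num) (by norm_num),
    e 3 4 (by norm_num) (by norm_num), e 5 4 (by norm_num) (by norm_num)]
  simp only [D_rot hc]
  simp only [D, pt_0, pt_1, pt_2, zt, ht, Complex.sub_re, Complex.sub_im, Complex.zero_re,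
    Complex.zero_im]
  norm_num

lemma smul_pt (a : ℝ) (z : ℂ) (h : ℝ) : a • pt z h = pt (a * z) (a * h) := by
  ext i
  fin_cases i <;> simp [pt]

lemma norm_axis {a : ℝ} (ha : 0 ≤ a) : ‖pt 0 a‖ = a :=
  norm_pt ha (by simp)

lemma inner_pt (z z' : ℂ) (h h' : ℝ) :
    inner ℝ (pt z h) (pt z' h') = z.re * z'.re + z.im * z'.im + h * h' := by
  rw [inner_E3, pt_0, pt_0, pt_1, pt_1, pt_2, pt_2]

lemma proj_pt {a : ℝ} (ha : 0 ≤ a) (z : ℂ) (h : ℝ) :
    ‖pt 0 a‖ ^ 2 • pt z h - (inner ℝ (pt 0 a) (pt z h)) • pt 0 a = pt ((a ^ 2 : ℝ) * z) 0 := by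
  rw [norm_axis ha, inner_pt, smul_pt, smul_pt, pt_sub, Complex.zero_re, Complex.zero_im]
  congr 1
  · rw [mul_zero, sub_zero]
  · ring

lemma T_axis {a b : ℝ} (ha : 0 ≤ a) (hb : 0 ≤ b) (z : ℂ) :
    T (pt 0 a) (pt 0 b) (pt z 0) = pt ((2 * a * b ^ 2 : ℝ) * z) 0 := by
  unfold T
  rw [norm_axis ha, norm_axis hb, inner_pt, inner_pt, Complex.zero_re, Complex.zero_im, smul_pt]
  rw [show (0 : ℝ) * z.re + 0 * z.im + b * 0 = 0 by ring, zero_smul, sub_zero]
  congr 1
  · congr 1
    norm_cast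
    ring
  · ring

lemma G_axis {a b : ℝ} (ha : 0 ≤ a) (hb : 0 ≤ b) (z z' : ℂ) (h h' : ℝ) :
    G (pt 0 a) (pt 0 b) (pt 0 a) (pt z h) (pt z' h')
      = (4 * a ^ 6 * b ^ 3 : ℝ) * (starRingEnd ℂ z * z') := by
  unfold G
  rw [proj_pt ha, T_axis ha hb, T_axis hb ha, norm_axis ha, inner_pt]
  apply Complex.ext
  · simp only [Complex.mul_re, Complex.mul_im, Complex.ofReal_re, Complex.ofReal_im,
      Complex.conj_re, Complex.conj_im]
    ring
  · simp only [D, pt_0, pt_1, pt_2, Complex.mul_re, Complex.mul_im, Complex.ofReal_re,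
      Complex.ofReal_im, Complex.conj_re, Complex.conj_im, Complex.zero_re, Complex.zero_im]
    ring

/-- The last comparison. -/
lemma H_axis {a B Y S R : ℝ} (ha : 0 ≤ a) (hS : 0 ≤ S) (hBY : S ^ 2 = Y ^ 2 + B ^ 2)
    (z : ℂ) (h : ℝ) : H (pt 0 a) (pt ⟨0, Y⟩ (-B)) (pt z h) (pt ⟨0, -R⟩ 0)
      = ((a ^ 3 * R * B * S * (S - B) : ℝ) * Complex.I) * starRingEnd ℂ z := by
  have hs : ‖pt ⟨0, Y⟩ (-B)‖ = S := by
    refine norm_pt hS ?_
    rw [Complex.normSq_apply, hBY]
    ring
  unfold H T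
  rw [proj_pt ha, hs, norm_axis ha, inner_pt, inner_pt]
  apply Complex.ext
  · simp only [inner_E3, PiLp.sub_apply, PiLp.smul_apply, PiLp.add_apply, smul_eq_mul, pt_0, pt_1,
      pt_2, Complex.mul_re, Complex.mul_im, Complex.ofReal_re, Complex.ofReal_im,
      Complex.conj_re, Complex.conj_im, Complex.I_re, Complex.I_im, Complex.zero_re,
      Complex.zero_im]
    linear_combination (-(a ^ 3 * z.im * R * S)) * hBY
  · simp only [D, PiLp.sub_apply, PiLp.smul_apply, PiLp.add_apply, smul_eq_mul, pt_0, pt_1,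
      pt_2, Complex.mul_re, Complex.mul_im, Complex.ofReal_re, Complex.ofReal_im,
      Complex.conj_re, Complex.conj_im, Complex.I_re, Complex.I_im, Complex.zero_re,
      Complex.zero_im]
    ring

/-! ### The family -/

/-- The parameters as a sequence. -/
noncomputable def es {K : ℕ} (s : Fin K → Circle) (j : ℕ) : Circle :=
  if h : j < K then s ⟨j, h⟩ else 1

lemma es_lt {K : ℕ} (s : Fin K → Circle) (j : Fin K) : es s j = s j := by
  rw [es, dif_pos j.2]

lemma es_ge {K : ℕ} (s : Fin K → Circle) {j : ℕ} (hj : K ≤ j) : es s j = 1 := by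
  rw [es, dif_neg (by omega)]

lemma continuous_es {K : ℕ} (j : ℕ) : Continuous fun s : Fin K → Circle => es s j := by
  by_cases h : j < K
  · simp only [es, dif_pos h]
    exact continuous_apply _
  · simp only [es, dif_neg h]
    exact continuous_const

variable {M n : ℕ}

lemma norm_es {K : ℕ} (s : Fin K → Circle) (j : ℕ) : ‖(es s j : ℂ)‖ = 1 := Circle.norm_coe _

/-- The polygon with the parameters `s`. -/
noncomputable def fam (M n : ℕ) (hn : 6 * M + 7 ≤ n) (s : Fin (M + 1) → Circle) :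
    ClosedTuple (lv n (LL M n)) :=
  tu M n hn (fun j => (es s j : ℂ)) (norm_es s)

lemma continuous_pt {A : Type*} [TopologicalSpace A] {f : A → ℂ} (hf : Continuous f) (h : ℝ) :
    Continuous fun a => pt (f a) h := by
  have h1 : Continuous fun a => WithLp.ofLp (pt (f a) h) := by
    refine continuous_pi fun j => ?_
    fin_cases j
    · exact Complex.continuous_re.comp hf
    · exact Complex.continuous_im.comp hf
    · exact continuous_const
  exact (PiLp.continuous_toLp 2 (fun _ : Fin 3 => ℝ)).comp h1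

lemma continuous_fam (hn : 6 * M + 7 ≤ n) : Continuous (fam M n hn) := by
  have cV : ∀ k, Continuous fun s : Fin (M + 1) → Circle => Vx M n (fun j => (es s j : ℂ)) k := by
    intro k
    unfold Vx
    split_ifs
    · exact continuous_pt ((continuous_subtype_val.comp (continuous_es _)).mul
        continuous_const) _
    · exact continuous_const
  refine continuous_induced_rng.mpr ?_
  refine continuous_pi fun i => ?_
  exact ((cV (i + 1)).sub (cV i)).const_smul ((LL M n i)⁻¹)

lemma vertex_fam (hn : 6 * M + 7 ≤ n) (s : Fin (M + 1) → Circle) {k : ℕ} (hk : k ≤ n) :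
    vertex (lv n (LL M n)) (fam M n hn s).1 k = Vx M n (fun j => (es s j : ℂ)) k :=
  vertex_tu hn _ hk

lemma sh_fam (hn : 6 * M + 7 ≤ n) (s : Fin (M + 1) → Circle) {j i : ℕ} (hj : j ≤ M)
    (hi : i < 6) : sh (LL M n) (fam M n hn s).1 (6 * j) i
      = pt ((es s j : ℂ) * zt i) (100 * j + ht i) := by
  unfold sh
  rw [vertex_fam hn s (by omega), Vx_core hj hi]

lemma kpos_fam (hn : 6 * M + 7 ≤ n) (s : Fin (M + 1) → Circle) {j : ℕ} (hj : j ≤ M) :
    Kpos (sh (LL M n) (fam M n hn s).1 (6 * j)) :=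
  Kpos_pt (norm_es s j) (100 * j) fun _ hi => sh_fam hn s hj (by omega)

/-- The polygon as a point of the complement of `X`. -/
noncomputable def fX (M n : ℕ) (hn : 6 * M + 7 ≤ n) (s : Fin (M + 1) → Circle) :
    ↥(X (lv n (LL M n)))ᶜ :=
  ⟨Quotient.mk (rotSetoid (lv n (LL M n))) (fam M n hn s), fun h =>
    tu_embedded hn (norm_es s) ((mk_mem_X (lv n (LL M n))).mp h)⟩

lemma continuous_fX (hn : 6 * M + 7 ≤ n) : Continuous (fX M n hn) :=
  Continuous.subtype_mk (continuous_quotient_mk'.comp (continuous_fam hn)) _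

lemma fX_mem (hn : 6 * M + 7 ≤ n) (s : Fin (M + 1) → Circle) :
    fX M n hn s ∈ connectedComponent (fX M n hn 1) := by
  have hpre : IsPreconnected (Set.range (fX M n hn)) := isPreconnected_range (continuous_fX hn)
  exact hpre.subset_connectedComponent (Set.mem_range_self 1) (Set.mem_range_self s)

/-- The component lies in the set of the polygons all of whose cores are knotted. -/
lemma comp_sub (hn : 6 * M + 7 ≤ n) {j : ℕ} (hj : j ≤ M) {q : ↥(X (lv n (LL M n)))ᶜ}
    (hq : q ∈ connectedComponent (fX M n hn 1)) : q.1 ∈ KM n (LL M n) (6 * j) :=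
  (isClopen_KM (coreAt hn hj) (LL_pos hn)).connectedComponent_subset
    (mk_mem_KM.mpr (kpos_fam hn 1 hj)) hq

/-- The comparison functions. -/
noncomputable def Fi (M n i : ℕ) (q : PolygonSpace (lv n (LL M n))) : ℂ :=
  if i < M then Gq n (LL M n) (6 * i) q else Hq n (LL M n) (6 * M) q

lemma continuous_Fi (i : ℕ) : Continuous (Fi M n i) := by
  by_cases h : i < M
  · have : Fi M n i = Gq n (LL M n) (6 * i) := by
      funext q
      rw [Fi, if_pos h]
    rw [this]
    exact continuous_Gq _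
  · have : Fi M n i = Hq n (LL M n) (6 * M) := by
      funext q
      rw [Fi, if_neg h]
    rw [this]
    exact continuous_Hq _

lemma Fi_ne_zero (hn : 6 * M + 7 ≤ n) (i : ℕ) {q : ↥(X (lv n (LL M n)))ᶜ}
    (hq : q ∈ connectedComponent (fX M n hn 1)) : Fi M n i q.1 ≠ 0 := by
  by_cases h : i < M
  · rw [Fi, if_pos h]
    refine Gq_ne_zero (coreAt hn h.le) (coreAt (j := i + 1) hn h) ?_ (LL_pos hn) q.2
      (comp_sub hn h.le hq) (comp_sub (j := i + 1) hn h hq)
    rw [between h]
    norm_num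
  · rw [Fi, if_neg h]
    refine Hq_ne_zero (coreAt hn le_rfl) hn ?_ (LL_pos hn) (long_sides hn)
      (fun i hi => LL_le (Or.inl hi)) (fun i hi _ => LL_le (Or.inr hi)) q.2
      (comp_sub hn le_rfl hq)
    have h1 := @LL_up_ge M n
    have h2 := @YY_ge M n
    have h5 : (7 : ℝ) ≤ n := by exact_mod_cast (by omega : 7 ≤ n)
    linarith

lemma Fi_fam (hn : 6 * M + 7 ≤ n) {i : ℕ} (hi : i ≤ M) : ∃ κ : ℂ, κ ≠ 0 ∧
    ∀ s : Fin (M + 1) → Circle, Fi M n i (Quotient.mk _ (fam M n hn s))
      = κ * (starRingEnd ℂ (es s i : ℂ) * (es s (i + 1) : ℂ)) := by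
  rcases hi.lt_or_eq with h | h
  · refine ⟨(4 * 34 ^ 6 * 66 ^ 3 : ℝ) * (starRingEnd ℂ (zt 1) * zt 1), ?_, ?_⟩
    · refine mul_ne_zero ?_ (mul_ne_zero ?_ ?_)
      · norm_num
      · rw [Ne, map_eq_zero]
        intro h0
        have := congrArg Complex.re h0
        simp [zt] at this
      · intro h0
        have := congrArg Complex.re h0
        simp [zt] at this
    · intro s
      rw [Fi, if_pos h]
      change Gu (LL M n) (fam M n hn s).1 (6 * i) = _
      have a0 := sh_fam hn s (j := i) (i := 0) h.le (by norm_num)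
      have a1 := sh_fam hn s (j := i) (i := 1) h.le (by norm_num)
      have a5 := sh_fam hn s (j := i) (i := 5) h.le (by norm_num)
      have b0 := sh_fam hn s (j := i + 1) (i := 0) h (by norm_num)
      have b1 := sh_fam hn s (j := i + 1) (i := 1) h (by norm_num)
      have b5 := sh_fam hn s (j := i + 1) (i := 5) h (by norm_num)
      have a6 : sh (LL M n) (fam M n hn s).1 (6 * i) 6
          = sh (LL M n) (fam M n hn s).1 (6 * (i + 1)) 0 := rfl
      have e6 : 6 * i + 6 = 6 * (i + 1) := rfl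
      unfold Gu
      rw [e6, a6, a0, a1, a5, b0, b1, b5]
      simp only [pt_sub]
      have z0 : zt 0 = 0 := rfl
      have z5 : zt 5 = 0 := rfl
      have h0 : ht 0 = 0 := rfl
      have h5 : ht 5 = 34 := rfl
      rw [z0, z5, h0, h5]
      simp only [mul_zero, sub_zero, add_zero]
      push_cast
      have q1 : (100 * (i : ℝ) + 34 - 100 * (i : ℝ)) = 34 := by ring
      have q2 : (100 * ((i : ℝ) + 1) - (100 * (i : ℝ) + 34)) = 66 := by ring
      have q3 : (100 * ((i : ℝ) + 1) + 34 - 100 * ((i : ℝ) + 1)) = 34 := by ring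
      rw [q1, q2, q3, G_axis (by norm_num) (by norm_num), map_mul]
      push_cast
      ring
  · subst h
    have hS : 0 ≤ BB i * √((10 * n : ℕ) ^ 2 + 1 : ℕ) := by
      have := @BB_ge i
      positivity
    have hS1 : BB i < BB i * √((10 * n : ℕ) ^ 2 + 1 : ℕ) := by
      have h1 := @BB_ge i
      have h2 := @sqrt_ge n
      have h5 : (7 : ℝ) ≤ n := by exact_mod_cast (by omega : 7 ≤ n)
      nlinarith
    have hR := LL_down_pos (M := i) hn
    refine ⟨((34 ^ 3 * (YY i n - ((n : ℝ) - (6 * i + 7))) * BB i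
      * (BB i * √((10 * n : ℕ) ^ 2 + 1 : ℕ))
      * (BB i * √((10 * n : ℕ) ^ 2 + 1 : ℕ) - BB i) : ℝ) * Complex.I)
      * starRingEnd ℂ (zt 1), ?_, ?_⟩
    · refine mul_ne_zero (mul_ne_zero ?_ Complex.I_ne_zero) ?_
      · rw [Ne, Complex.ofReal_eq_zero]
        have h1 := @BB_ge i
        have h2 : 0 < BB i * √((10 * n : ℕ) ^ 2 + 1 : ℕ) - BB i := by linarith
        have h3 : 0 < BB i * √((10 * n : ℕ) ^ 2 + 1 : ℕ) := by linarith
        positivity
      · rw [Ne, map_eq_zero]
        intro h0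
        have := congrArg Complex.re h0
        simp [zt] at this
    · intro s
      rw [Fi, if_neg (lt_irrefl _)]
      change Hu (LL i n) (fam i n hn s).1 (6 * i) = _
      have a0 := sh_fam hn s (j := i) (i := 0) le_rfl (by norm_num)
      have a1 := sh_fam hn s (j := i) (i := 1) le_rfl (by norm_num)
      have a5 := sh_fam hn s (j := i) (i := 5) le_rfl (by norm_num)
      have a6 : sh (LL i n) (fam i n hn s).1 (6 * i) 6 = pt ⟨0, YY i n⟩ 0 := by
        unfold sh
        rw [vertex_fam hn s (by omega), Vx_far (by omega), yf_U]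
      have a7 : sh (LL i n) (fam i n hn s).1 (6 * i) 7
          = pt ⟨0, (n : ℝ) - (6 * i + 7)⟩ 0 := by
        unfold sh
        rw [vertex_fam hn s (by omega), Vx_far (by omega), yf_far (by omega)]
        push_cast
        rfl
      unfold Hu
      rw [a0, a1, a5, a6, a7]
      simp only [pt_sub]
      have z0 : zt 0 = 0 := rfl
      have z5 : zt 5 = 0 := rfl
      have h0 : ht 0 = 0 := rfl
      have h5 : ht 5 = 34 := rfl
      rw [z0, z5, h0, h5]
      simp only [mul_zero, sub_zero, add_zero]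
      have q1 : (100 * (i : ℝ) + 34 - 100 * (i : ℝ)) = 34 := by ring
      have q2 : (0 - (100 * (i : ℝ) + 34)) = -(BB i) := by
        unfold BB
        ring
      have q3 : (⟨0, (n : ℝ) - (6 * i + 7)⟩ - ⟨0, YY i n⟩ : ℂ)
          = ⟨0, -(YY i n - ((n : ℝ) - (6 * i + 7)))⟩ := by
        apply Complex.ext
        · simp
        · simp
      rw [q1, q2, q3, H_axis (by norm_num) hS ?_, map_mul, es_ge s (j := i + 1) le_rfl]
      · push_cast
        ring
      · rw [mul_pow, Real.sq_sqrt (by positivity)]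
        simp only [YY]
        push_cast
        ring

end Pool.Agent.KS6_36.PG
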