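import Pool.Graph.R_seed8.Results.MP_e82153_gt.Knotted

/-!
# Transport of a normal vector along an embedded polygonal line

`T w s x` is (a positive multiple of) the parallel transport of a vector `x`, orthogonal to `w`,
from the direction `w` to the direction `s`; it does not vanish as long as `s` does not point
exactly backwards. `G w s w' ν ν'` compares, as a complex number, the normal part of `ν` at `w`,
transported to `s` and then to `w'`, with the normal part of `ν'` at `w'`.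
-/

set_option autoImplicit false

namespace Pool.Agent.KS6_36.PG

open Pool.Agent.Results.MP_e82153_gt.Knotted

/-- Transport (up to a positive factor) from the direction of `w` to the direction of `s`. -/
noncomputable def T (w s x : E3) : E3 :=
  (‖s‖ * (‖w‖ * ‖s‖ + inner ℝ w s)) • x - (inner ℝ s x) • (‖s‖ • w + ‖w‖ • s)

/-- Comparison of two vectors `ν`, `ν'` at the consecutive edges `w`, `s`, `w'`. -/
noncomputable def G (w s w' ν ν' : E3) : ℂ :=
  ⟨‖w'‖ * inner ℝ (T s w' (T w s (‖w‖ ^ 2 • ν - (inner ℝ w ν) • w))) ν',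
    D w' (T s w' (T w s (‖w‖ ^ 2 • ν - (inner ℝ w ν) • w))) ν'⟩

lemma T_inner (w s x : E3) : inner ℝ s (T w s x) = 0 := by
  unfold T
  rw [inner_sub_right, inner_smul_right, inner_smul_right, inner_add_right, inner_smul_right,
    inner_smul_right, real_inner_self_eq_norm_sq, real_inner_comm s w]
  ring

lemma sum_norm_sq (w s : E3) :
    ‖‖s‖ • w + ‖w‖ • s‖ ^ 2 = 2 * (‖w‖ * ‖s‖) * (‖w‖ * ‖s‖ + inner ℝ w s) := by
  rw [norm_add_sq_real, norm_smul, norm_smul, inner_smul_left, inner_smul_right]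
  simp only [norm_norm, conj_trivial]
  ring

lemma T_norm_sq {w s x : E3} (h : inner ℝ w x = 0) :
    ‖T w s x‖ ^ 2 = (‖s‖ * (‖w‖ * ‖s‖ + inner ℝ w s)) ^ 2 * ‖x‖ ^ 2 := by
  unfold T
  rw [norm_sub_sq_real, norm_smul, norm_smul, inner_smul_left, inner_smul_right, mul_pow,
    mul_pow, sum_norm_sq, inner_add_right, inner_smul_right, inner_smul_right,
    real_inner_comm w x, h, real_inner_comm s x]
  simp only [Real.norm_eq_abs, sq_abs, conj_trivial]
  ring

lemma T_ne_zero {w s x : E3} (h : inner ℝ w x = 0) (hx : x ≠ 0) (hs : s ≠ 0)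
    (hf : ‖w‖ * ‖s‖ + inner ℝ w s ≠ 0) : T w s x ≠ 0 := by
  intro h0
  have := T_norm_sq (s := s) h
  rw [h0, norm_zero] at this
  have h1 : 0 < (‖s‖ * (‖w‖ * ‖s‖ + inner ℝ w s)) ^ 2 * ‖x‖ ^ 2 := by
    have a1 : 0 < ‖x‖ := norm_pos_iff.mpr hx
    have a2 : 0 < ‖s‖ := norm_pos_iff.mpr hs
    have a3 : 0 < (‖w‖ * ‖s‖ + inner ℝ w s) ^ 2 := by positivity
    rw [mul_pow]
    positivity
  rw [← this] at h1
  norm_num at h1

/-- If the next edge points exactly backwards and is long enough, it contains the starting point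
of the previous edge. -/
lemma fold_back {a b c : E3} (hw : b - a ≠ 0) (hle : ‖b - a‖ ≤ ‖c - b‖)
    (h : ‖b - a‖ * ‖c - b‖ + inner ℝ (b - a) (c - b) = 0) : a ∈ segment ℝ b c := by
  have h0 := sum_norm_sq (b - a) (c - b)
  rw [h, mul_zero] at h0
  have h1 : ‖c - b‖ • (b - a) + ‖b - a‖ • (c - b) = 0 := by
    rw [← norm_eq_zero]
    exact pow_eq_zero_iff (two_ne_zero) |>.mp h0
  have hW : 0 < ‖b - a‖ := norm_pos_iff.mpr hw
  have hS : 0 < ‖c - b‖ := lt_of_lt_of_le hW hle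
  refine ⟨1 - ‖b - a‖ / ‖c - b‖, ‖b - a‖ / ‖c - b‖, ?_, by positivity, by ring, ?_⟩
  · rw [sub_nonneg, div_le_one hS]
    exact hle
  · have h2 : (‖b - a‖ / ‖c - b‖) • (c - b) = -(b - a) := by
      have : ‖b - a‖ • (c - b) = -(‖c - b‖ • (b - a)) := by
        rw [← sub_eq_zero, sub_neg_eq_add, add_comm]; exact h1
      rw [div_eq_inv_mul, mul_smul, this, smul_neg, smul_smul, inv_mul_cancel₀ hS.ne', one_smul]
    calc (1 - ‖b - a‖ / ‖c - b‖) • b + (‖b - a‖ / ‖c - b‖) • c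
        = b + (‖b - a‖ / ‖c - b‖) • (c - b) := by module
      _ = a := by rw [h2]; abel

/-- If the next edge points exactly backwards and is short enough, its end point is on the
previous edge. -/
lemma fold_back' {a b c : E3} (hw : c - b ≠ 0) (hle : ‖c - b‖ ≤ ‖b - a‖)
    (h : ‖b - a‖ * ‖c - b‖ + inner ℝ (b - a) (c - b) = 0) : c ∈ segment ℝ a b := by
  rw [segment_symm]
  refine fold_back (a := c) (b := b) (c := a) ?_ ?_ ?_
  · rw [← neg_sub]; exact neg_ne_zero.mpr hw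
  · rw [norm_sub_rev b c, norm_sub_rev a b]; exact hle
  · rw [norm_sub_rev b c, norm_sub_rev a b, mul_comm, ← h]
    congr 1
    rw [← neg_sub c b, ← neg_sub b a, inner_neg_left, inner_neg_right, neg_neg,
      real_inner_comm]

lemma proj_inner (w ν : E3) : inner ℝ w (‖w‖ ^ 2 • ν - (inner ℝ w ν) • w) = 0 := by
  rw [inner_sub_right, inner_smul_right, inner_smul_right, real_inner_self_eq_norm_sq]
  ring

lemma proj_ne_zero {w ν : E3} (h : 0 < ‖w‖ ^ 2 * ‖ν‖ ^ 2 - inner ℝ ν w ^ 2) :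
    ‖w‖ ^ 2 • ν - (inner ℝ w ν) • w ≠ 0 := by
  intro h0
  have h1 : inner ℝ ν (‖w‖ ^ 2 • ν - (inner ℝ w ν) • w) = 0 := by rw [h0, inner_zero_right]
  rw [inner_sub_right, inner_smul_right, inner_smul_right, real_inner_self_eq_norm_sq,
    real_inner_comm ν w] at h1
  nlinarith [h1, h]

lemma G_ne_zero {w s w' ν ν' : E3} (hw : 0 < ‖w‖ ^ 2 * ‖ν‖ ^ 2 - inner ℝ ν w ^ 2)
    (hw' : 0 < ‖w'‖ ^ 2 * ‖ν'‖ ^ 2 - inner ℝ ν' w' ^ 2) (hs : s ≠ 0)
    (h1 : ‖w‖ * ‖s‖ + inner ℝ w s ≠ 0) (h2 : ‖s‖ * ‖w'‖ + inner ℝ s w' ≠ 0) :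
    G w s w' ν ν' ≠ 0 := by
  set x := ‖w‖ ^ 2 • ν - (inner ℝ w ν) • w with hx
  set z := T s w' (T w s x) with hz
  have hw'0 : w' ≠ 0 := by
    intro h
    rw [h] at hw'
    simp at hw'
  have z0 : z ≠ 0 :=
    T_ne_zero (T_inner w s x) (T_ne_zero (proj_inner w ν) (proj_ne_zero hw) hs h1) hw'0 h2
  have zw : inner ℝ w' z = 0 := T_inner s w' _
  intro h0
  have hre : ‖w'‖ * inner ℝ z ν' = 0 := congrArg Complex.re h0
  have him : D w' z ν' = 0 := congrArg Complex.im h0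
  have hg := gram w' z ν'
  rw [real_inner_comm w' z, zw, him] at hg
  have n0 : 0 < ‖w'‖ := norm_pos_iff.mpr hw'0
  have nz : 0 < ‖z‖ := norm_pos_iff.mpr z0
  have hre' : inner ℝ z ν' = 0 := by
    rcases mul_eq_zero.mp hre with h | h
    · exact absurd h n0.ne'
    · exact h
  rw [hre'] at hg
  have : 0 < (‖w'‖ ^ 2 * ‖z‖ ^ 2 - 0 ^ 2) * (‖w'‖ ^ 2 * ‖ν'‖ ^ 2 - inner ℝ ν' w' ^ 2) := by
    apply mul_pos _ hw'
    have : 0 < ‖w'‖ ^ 2 * ‖z‖ ^ 2 := by positivity
    linarith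
  rw [← hg] at this
  norm_num at this

lemma T_map (g : E3 ≃ₗᵢ[ℝ] E3) (w s x : E3) : T (g w) (g s) (g x) = g (T w s x) := by
  unfold T
  simp only [LinearIsometryEquiv.inner_map_map, LinearIsometryEquiv.norm_map, map_sub, map_smul,
    map_add]

lemma G_map (g : E3 ≃ₗᵢ[ℝ] E3) (hg : LinearMap.det (g.toLinearEquiv : E3 →ₗ[ℝ] E3) = 1)
    (w s w' ν ν' : E3) : G (g w) (g s) (g w') (g ν) (g ν') = G w s w' ν ν' := by
  have e : ‖g w‖ ^ 2 • g ν - (inner ℝ (g w) (g ν)) • g w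
      = g (‖w‖ ^ 2 • ν - (inner ℝ w ν) • w) := by
    simp only [LinearIsometryEquiv.inner_map_map, LinearIsometryEquiv.norm_map, map_sub, map_smul]
  unfold G
  rw [e, T_map, T_map, D_map g hg, LinearIsometryEquiv.inner_map_map,
    LinearIsometryEquiv.norm_map]

lemma continuous_T {A : Type*} [TopologicalSpace A] {f g h : A → E3} (hf : Continuous f)
    (hg : Continuous g) (hh : Continuous h) : Continuous fun a => T (f a) (g a) (h a) := by
  unfold T
  have i1 : Continuous fun a => inner ℝ (f a) (g a) := hf.inner hg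
  have i2 : Continuous fun a => inner ℝ (g a) (h a) := hg.inner hh
  exact ((hg.norm.mul ((hf.norm.mul hg.norm).add i1)).smul hh).sub
    (i2.smul ((hg.norm.smul hf).add (hf.norm.smul hg)))

lemma continuous_G {A : Type*} [TopologicalSpace A] {w s w' ν ν' : A → E3} (hw : Continuous w)
    (hs : Continuous s) (hw' : Continuous w') (hν : Continuous ν) (hν' : Continuous ν') :
    Continuous fun a => G (w a) (s a) (w' a) (ν a) (ν' a) := by
  have i1 : Continuous fun a => inner ℝ (w a) (ν a) := hw.inner hν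
  have hx : Continuous fun a => ‖w a‖ ^ 2 • ν a - (inner ℝ (w a) (ν a)) • w a :=
    ((hw.norm.pow 2).smul hν).sub (i1.smul hw)
  have hz := continuous_T hs hw' (continuous_T hw hs hx)
  have e : (fun a => G (w a) (s a) (w' a) (ν a) (ν' a)) = fun a =>
      ((‖w' a‖ * inner ℝ (T (s a) (w' a) (T (w a) (s a)
        (‖w a‖ ^ 2 • ν a - (inner ℝ (w a) (ν a)) • w a))) (ν' a) : ℝ) : ℂ)
      + ((D (w' a) (T (s a) (w' a) (T (w a) (s a)
        (‖w a‖ ^ 2 • ν a - (inner ℝ (w a) (ν a)) • w a))) (ν' a) : ℝ) : ℂ) * Complex.I := by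
    funext a
    rw [G]
    exact Complex.mk_eq_add_mul_I _ _
  rw [e]
  refine Continuous.add (Complex.continuous_ofReal.comp ?_)
    ((Complex.continuous_ofReal.comp ?_).mul continuous_const)
  · exact hw'.norm.mul (hz.inner hν')
  · exact continuous_D hw' hz hν'

/-! ### One step only -/

/-- Comparison of the normal part of `ν` at `w`, transported to `s`, with the normal part of `ν'`
at `s`. -/
noncomputable def H (w s ν ν' : E3) : ℂ :=
  ⟨‖s‖ * inner ℝ (T w s (‖w‖ ^ 2 • ν - (inner ℝ w ν) • w)) ν',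
    D s (T w s (‖w‖ ^ 2 • ν - (inner ℝ w ν) • w)) ν'⟩

lemma H_ne_zero {w s ν ν' : E3} (hw : 0 < ‖w‖ ^ 2 * ‖ν‖ ^ 2 - inner ℝ ν w ^ 2)
    (hs : 0 < ‖s‖ ^ 2 * ‖ν'‖ ^ 2 - inner ℝ ν' s ^ 2)
    (h1 : ‖w‖ * ‖s‖ + inner ℝ w s ≠ 0) : H w s ν ν' ≠ 0 := by
  set x := ‖w‖ ^ 2 • ν - (inner ℝ w ν) • w with hx
  set z := T w s x with hz
  have hs0 : s ≠ 0 := by
    intro h
    rw [h] at hs
    simp at hs
  have z0 : z ≠ 0 := T_ne_zero (proj_inner w ν) (proj_ne_zero hw) hs0 h1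
  have zw : inner ℝ s z = 0 := T_inner w s _
  intro h0
  have hre : ‖s‖ * inner ℝ z ν' = 0 := congrArg Complex.re h0
  have him : D s z ν' = 0 := congrArg Complex.im h0
  have hg := gram s z ν'
  rw [real_inner_comm s z, zw, him] at hg
  have n0 : 0 < ‖s‖ := norm_pos_iff.mpr hs0
  have nz : 0 < ‖z‖ := norm_pos_iff.mpr z0
  have hre' : inner ℝ z ν' = 0 := by
    rcases mul_eq_zero.mp hre with h | h
    · exact absurd h n0.ne'
    · exact h
  rw [hre'] at hg
  have : 0 < (‖s‖ ^ 2 * ‖z‖ ^ 2 - 0 ^ 2) * (‖s‖ ^ 2 * ‖ν'‖ ^ 2 - inner ℝ ν' s ^ 2) := by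
    apply mul_pos _ hs
    have : 0 < ‖s‖ ^ 2 * ‖z‖ ^ 2 := by positivity
    linarith
  rw [← hg] at this
  norm_num at this

lemma H_map (g : E3 ≃ₗᵢ[ℝ] E3) (hg : LinearMap.det (g.toLinearEquiv : E3 →ₗ[ℝ] E3) = 1)
    (w s ν ν' : E3) : H (g w) (g s) (g ν) (g ν') = H w s ν ν' := by
  have e : ‖g w‖ ^ 2 • g ν - (inner ℝ (g w) (g ν)) • g w
      = g (‖w‖ ^ 2 • ν - (inner ℝ w ν) • w) := by
    simp only [LinearIsometryEquiv.inner_map_map, LinearIsometryEquiv.norm_map, map_sub, map_smul]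
  unfold H
  rw [e, T_map, D_map g hg, LinearIsometryEquiv.inner_map_map,
    LinearIsometryEquiv.norm_map]

lemma continuous_H {A : Type*} [TopologicalSpace A] {w s ν ν' : A → E3} (hw : Continuous w)
    (hs : Continuous s) (hν : Continuous ν) (hν' : Continuous ν') :
    Continuous fun a => H (w a) (s a) (ν a) (ν' a) := by
  have i1 : Continuous fun a => inner ℝ (w a) (ν a) := hw.inner hν
  have hx : Continuous fun a => ‖w a‖ ^ 2 • ν a - (inner ℝ (w a) (ν a)) • w a :=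
    ((hw.norm.pow 2).smul hν).sub (i1.smul hw)
  have hz := continuous_T hw hs hx
  have e : (fun a => H (w a) (s a) (ν a) (ν' a)) = fun a =>
      ((‖s a‖ * inner ℝ (T (w a) (s a)
        (‖w a‖ ^ 2 • ν a - (inner ℝ (w a) (ν a)) • w a)) (ν' a) : ℝ) : ℂ)
      + ((D (s a) (T (w a) (s a)
        (‖w a‖ ^ 2 • ν a - (inner ℝ (w a) (ν a)) • w a)) (ν' a) : ℝ) : ℂ) * Complex.I := by
    funext a
    rw [H]
    exact Complex.mk_eq_add_mul_I _ _
  rw [e]
  refine Continuous.add (Complex.continuous_ofReal.comp ?_)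
    ((Complex.continuous_ofReal.comp ?_).mul continuous_const)
  · exact hs.norm.mul (hz.inner hν')
  · exact continuous_D hs hz hν'

/-- Two vectors which are neither opposite in direction nor equal in direction. -/
lemma strict_cs {s r : E3} (h1 : ‖s‖ * ‖r‖ + inner ℝ s r ≠ 0) (h2 : ‖s + r‖ ≠ ‖s‖ + ‖r‖) :
    0 < ‖s‖ ^ 2 * ‖r‖ ^ 2 - inner ℝ r s ^ 2 := by
  rw [real_inner_comm s r]
  have a := abs_real_inner_le_norm s r
  have b := abs_le.mp a
  have h1' : 0 < ‖s‖ * ‖r‖ + inner ℝ s r := by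
    rcases (by linarith [b.1] : 0 ≤ ‖s‖ * ‖r‖ + inner ℝ s r).eq_or_lt with h | h
    · exact absurd h.symm h1
    · exact h
  have h2' : 0 < ‖s‖ * ‖r‖ - inner ℝ s r := by
    rcases (by linarith [b.2] : 0 ≤ ‖s‖ * ‖r‖ - inner ℝ s r).eq_or_lt with h | h
    · exfalso
      apply h2
      have e := norm_add_sq_real s r
      have e' : ‖s + r‖ ^ 2 = (‖s‖ + ‖r‖) ^ 2 := by
        rw [e]
        linear_combination 2 * h
      exact (pow_left_inj₀ (norm_nonneg _) (by positivity) two_ne_zero).mp e'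
    · exact h
  have := mul_pos h1' h2'
  nlinarith [this]

/-- In a knotted core the first needle is not parallel to the axis. -/
lemma Kpos_D_ne {P : ℕ → E3} (hK : Kpos P) : D (P 1 - P 0) (P 5 - P 0) (P 4 - P 1) ≠ 0 := by
  obtain ⟨⟨a1, a2, a3⟩, ⟨b1, b2, b3⟩, c⟩ := hK
  have hV0 : V P ≠ 0 := by
    intro h0
    rw [h0, zero_mul, mul_zero] at c
    exact lt_irrefl _ c
  have hO : A2 P * B3 P - A3 P * B2 P ≠ 0 := by
    intro h0
    have : A3 P * B2 P - A2 P * B3 P = 0 := by linarith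
    rw [this, zero_mul] at c
    exact lt_irrefl _ c
  have ca := cramer (P 0 - P 1) (P 2 - P 1) (P 3 - P 1) (P 4 - P 1)
  have cb := cramer (P 5 - P 4) (P 1 - P 4) (P 2 - P 4) (P 3 - P 4)
  change (V P) • (P 0 - P 1) = (A2 P) • (P 2 - P 1) + (A3 P) • (P 3 - P 1)
    + (A4 P) • (P 4 - P 1) at ca
  change (W P) • (P 5 - P 4) = (B1 P) • (P 1 - P 4) + (B2 P) • (P 2 - P 4)
    + (B3 P) • (P 3 - P 4) at cb
  have key : V P * W P * D (P 0 - P 1) (P 5 - P 4) (P 4 - P 1)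
      = (A2 P * B3 P - A3 P * B2 P) * V P := by
    have e1 : V P * W P * D (P 0 - P 1) (P 5 - P 4) (P 4 - P 1)
        = D (V P • (P 0 - P 1)) (W P • (P 5 - P 4)) (P 4 - P 1) := by
      simp only [D, PiLp.smul_apply, smul_eq_mul]; ring
    rw [e1, ca, cb]
    have e2 : V P = D (P 2 - P 1) (P 3 - P 1) (P 4 - P 1) := rfl
    rw [e2]
    simp only [D, PiLp.smul_apply, PiLp.add_apply, PiLp.sub_apply, smul_eq_mul]; ring
  have hD : D (P 0 - P 1) (P 5 - P 4) (P 4 - P 1) ≠ 0 := by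
    intro h0
    rw [h0, mul_zero] at key
    exact (mul_ne_zero hO hV0) key.symm
  have : D (P 1 - P 0) (P 5 - P 0) (P 4 - P 1) = - D (P 0 - P 1) (P 5 - P 4) (P 4 - P 1) := by
    simp only [D, PiLp.sub_apply]; ring
  rw [this]
  exact neg_ne_zero.mpr hD

lemma Kpos_gram {P : ℕ → E3} (hK : Kpos P) :
    0 < ‖P 5 - P 0‖ ^ 2 * ‖P 1 - P 0‖ ^ 2 - inner ℝ (P 1 - P 0) (P 5 - P 0) ^ 2 :=
  gram_pos (Kpos_D_ne hK)

lemma Kpos_axis {P : ℕ → E3} (hK : Kpos P) : P 5 - P 0 ≠ 0 := by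
  intro h
  have := Kpos_gram hK
  rw [h] at this
  simp at this

end Pool.Agent.KS6_36.PG
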