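import Pool.Agent.KS6_36.PG.Fam

/-!
# The torus is a retract of the component
-/

set_option autoImplicit false

namespace Pool.Agent.KS6_36.PG

open Pool.Agent.Results.MP_e82153_gt.Knotted

/-! ### Circle valued functions -/

/-- The direction of a nowhere vanishing complex function. -/
noncomputable def dir {C : Type*} [TopologicalSpace C] (Φ : C → ℂ) (hΦ : Continuous Φ)
    (h0 : ∀ c, Φ c ≠ 0) : C(C, Circle) where
  toFun c := ⟨Φ c / (‖Φ c‖ : ℂ), by
    refine mem_sphere_zero_iff_norm.mpr ?_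
    rw [norm_div, Complex.norm_real, norm_norm, div_self]
    exact norm_ne_zero_iff.mpr (h0 c)⟩
  continuous_toFun := by
    refine Continuous.subtype_mk ?_ _
    refine Continuous.div hΦ (Complex.continuous_ofReal.comp hΦ.norm) fun c => ?_
    rw [Complex.ofReal_ne_zero]
    exact norm_ne_zero_iff.mpr (h0 c)

lemma coe_dir {C : Type*} [TopologicalSpace C] (Φ : C → ℂ) (hΦ : Continuous Φ)
    (h0 : ∀ c, Φ c ≠ 0) (c : C) : (dir Φ hΦ h0 c : ℂ) = Φ c / (‖Φ c‖ : ℂ) := rfl

lemma dir_mul {C : Type*} [TopologicalSpace C] (Φ : C → ℂ) (hΦ : Continuous Φ)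
    (h0 : ∀ c, Φ c ≠ 0) {c c' : C} {κ : ℂ} {z z' : Circle} (h : Φ c = κ * z)
    (h' : Φ c' = κ * z') : dir Φ hΦ h0 c * z' = dir Φ hΦ h0 c' * z := by
  apply Circle.ext
  rw [Circle.coe_mul, Circle.coe_mul, coe_dir, coe_dir, h, h', norm_mul, norm_mul,
    Circle.norm_coe, Circle.norm_coe]
  ring

/-! ### The retraction -/

variable {M n : ℕ}

/-- The component. -/
abbrev Cp (M n : ℕ) (hn : 6 * M + 7 ≤ n) : Set ↥(X (lv n (LL M n)))ᶜ :=
  connectedComponent (fX M n hn 1)

/-- The circle valued comparison functions. -/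
noncomputable def Di (M n : ℕ) (hn : 6 * M + 7 ≤ n) (i : ℕ) : C(Cp M n hn, Circle) :=
  dir (fun c => Fi M n i c.1.1)
    ((continuous_Fi i).comp (continuous_subtype_val.comp continuous_subtype_val))
    (fun c => Fi_ne_zero hn i c.2)

/-- The inclusion of the torus. -/
noncomputable def inc (M n : ℕ) (hn : 6 * M + 7 ≤ n) : C(Fin (M + 1) → Circle, Cp M n hn) where
  toFun s := ⟨fX M n hn s, fX_mem hn s⟩
  continuous_toFun := Continuous.subtype_mk (continuous_fX hn) _

lemma Di_inc (hn : 6 * M + 7 ≤ n) {i : ℕ} (hi : i ≤ M) (s : Fin (M + 1) → Circle) :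
    Di M n hn i (inc M n hn s) / Di M n hn i (inc M n hn 1) = es s (i + 1) / es s i := by
  obtain ⟨κ, -, hκ⟩ := Fi_fam hn hi
  have e : ∀ s : Fin (M + 1) → Circle, Fi M n i ((inc M n hn s).1.1)
      = κ * ((es s (i + 1) / es s i : Circle) : ℂ) := by
    intro s
    refine (hκ s).trans ?_
    rw [Circle.coe_div, mul_comm (starRingEnd ℂ _), div_eq_mul_inv, ← Circle.coe_inv,
      Circle.coe_inv_eq_conj]
  have h := dir_mul (fun c : Cp M n hn => Fi M n i c.1.1)
    ((continuous_Fi i).comp (continuous_subtype_val.comp continuous_subtype_val))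
    (fun c => Fi_ne_zero hn i c.2) (c := inc M n hn s) (c' := inc M n hn 1) (κ := κ)
    (z := es s (i + 1) / es s i) (z' := es 1 (i + 1) / es 1 i) (e s) (e 1)
  have e1 : ∀ j, es (1 : Fin (M + 1) → Circle) j = 1 := by
    intro j
    unfold es
    split_ifs <;> rfl
  rw [e1, e1, div_one, mul_one] at h
  change Di M n hn i (inc M n hn s) = Di M n hn i (inc M n hn 1) * _ at h
  rw [h, mul_div_cancel_left]

/-- The retraction. -/
noncomputable def ret (M n : ℕ) (hn : 6 * M + 7 ≤ n) : C(Cp M n hn, Fin (M + 1) → Circle) where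
  toFun c j := (∏ i ∈ Finset.Ico (j : ℕ) (M + 1), Di M n hn i c / Di M n hn i (inc M n hn 1))⁻¹
  continuous_toFun := by
    refine continuous_pi fun j => ?_
    refine Continuous.inv ?_
    refine continuous_finsetProd _ fun i _ => ?_
    exact ((Di M n hn i).continuous).div' continuous_const

lemma ret_inc (hn : 6 * M + 7 ≤ n) (s : Fin (M + 1) → Circle) :
    ret M n hn (inc M n hn s) = s := by
  funext j
  change (∏ i ∈ Finset.Ico (j : ℕ) (M + 1), Di M n hn i (inc M n hn s)
    / Di M n hn i (inc M n hn 1))⁻¹ = s j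
  have : ∏ i ∈ Finset.Ico (j : ℕ) (M + 1), Di M n hn i (inc M n hn s)
      / Di M n hn i (inc M n hn 1) = ∏ i ∈ Finset.Ico (j : ℕ) (M + 1), es s (i + 1) / es s i := by
    refine Finset.prod_congr rfl fun i hi => ?_
    rw [Finset.mem_Ico] at hi
    exact Di_inc hn (by omega) s
  have e2 : ∏ i ∈ Finset.Ico (j : ℕ) (M + 1), es s (i + 1) / es s i
      = es s (M + 1) / es s j := Finset.prod_Ico_div (es s) (by omega)
  rw [this, e2, es_ge s le_rfl, es_lt, inv_div, div_one]

/-! ### The fundamental group -/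

lemma not_simply (hn : 6 * M + 7 ≤ n) : ¬ SimplyConnectedSpace (Cp M n hn) := by
  intro hsc
  refine no_loop (C := Cp M n hn) (fun c => ((ret M n hn c 0 : Circle) : ℂ))
    (continuous_subtype_val.comp ((continuous_apply 0).comp (ret M n hn).continuous))
    (fun c => Circle.coe_ne_zero _) (fun θ => inc M n hn fun _ => Circle.exp θ)
    ((inc M n hn).continuous.comp (continuous_pi fun _ => Circle.exp.continuous)) ?_ 1 ?_
  · simp
  · intro θ
    rw [ret_inc, one_mul, Circle.coe_exp]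

/-! ### Genericity -/

/-- All lengths but one are integers, and the exceptional one is irrational. -/
lemma generic (hn : 6 * M + 7 ≤ n) (ε : Fin n → ℝ) (hε : ∀ i, ε i = 1 ∨ ε i = -1) :
    ∑ i, ε i * lv n (LL M n) i ≠ 0 := by
  intro h0
  have hirr : Irrational (√((10 * n : ℕ) ^ 2 + 1 : ℕ)) := by
    rw [irrational_sqrt_natCast_iff]
    rintro ⟨r, hr⟩
    have h1 : 10 * n < r := by
      by_contra hc
      push Not at hc
      nlinarith
    nlinarith
  have hr : ∀ i : Fin n, (i : ℕ) ≠ 6 * M + 5 → ∃ z : ℤ, ε i * lv n (LL M n) i = z := by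
    intro i hi
    have : ∃ z : ℤ, LL M n i = z := by
      unfold LL
      split_ifs with h1 h2
      · unfold cl
        split
        · exact ⟨24, by norm_num⟩
        · exact ⟨3, by norm_num⟩
        · exact ⟨4, by norm_num⟩
        · exact ⟨3, by norm_num⟩
        · exact ⟨24, by norm_num⟩
        · exact ⟨66, by norm_num⟩
      · refine ⟨10 * n * (34 + 100 * M) - (n - (6 * M + 7)), ?_⟩
        unfold YY BB
        push_cast
        ring
      · exact ⟨1, by norm_num⟩
    obtain ⟨z, hz⟩ := this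
    rcases hε i with e | e
    · exact ⟨z, by rw [e, one_mul]; exact hz⟩
    · refine ⟨-z, ?_⟩
      rw [e]
      push_cast
      rw [← hz]
      ring
  choose! z hz using hr
  let i0 : Fin n := ⟨6 * M + 5, by omega⟩
  have hsum : ∑ i, ε i * lv n (LL M n) i = ε i0 * LL M n (6 * M + 5)
      + ((∑ i ∈ Finset.univ.erase i0, z i : ℤ) : ℝ) := by
    rw [← Finset.add_sum_erase _ _ (Finset.mem_univ i0)]
    congr 1
    push_cast
    refine Finset.sum_congr rfl fun i hi => ?_
    refine hz i ?_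
    intro h
    exact (Finset.mem_erase.mp hi).1 (Fin.ext h)
  rw [hsum, LL_up] at h0
  set Z : ℤ := ∑ i ∈ Finset.univ.erase i0, z i with hZ
  have hB : (0 : ℝ) < BB M := by
    have := @BB_ge M
    linarith
  have hBq : BB M = ((34 + 100 * (M : ℤ) : ℤ) : ℝ) := by
    unfold BB
    push_cast
    ring
  rcases hε i0 with e | e
  · apply hirr
    refine ⟨((-Z : ℤ) : ℚ) / ((34 + 100 * (M : ℤ) : ℤ) : ℚ), ?_⟩
    rw [Rat.cast_div, Rat.cast_intCast, Rat.cast_intCast, ← hBq, div_eq_iff hB.ne']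
    rw [e, one_mul] at h0
    push_cast at h0 ⊢
    linarith
  · apply hirr
    refine ⟨((Z : ℤ) : ℚ) / ((34 + 100 * (M : ℤ) : ℤ) : ℚ), ?_⟩
    rw [Rat.cast_div, Rat.cast_intCast, Rat.cast_intCast, ← hBq, div_eq_iff hB.ne']
    rw [e] at h0
    push_cast at h0 ⊢
    linarith

/-- For all numbers `K` and `n` with `1 ≤ K` and `6 K + 1 ≤ n` there are generic side lengths and
a component of which the `K`-dimensional torus is a retract. -/
theorem main {K n : ℕ} (hK : 1 ≤ K) (hn : 6 * K + 1 ≤ n) : ∃ ℓ : Fin n → ℝ, (∀ i, 0 < ℓ i) ∧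
    (∀ ε : Fin n → ℝ, (∀ i, ε i = 1 ∨ ε i = -1) → ∑ i, ε i * ℓ i ≠ 0) ∧
    ∃ q : ↥(X ℓ)ᶜ,
      (∃ (i : C(Fin K → Circle, connectedComponent q))
        (r : C(connectedComponent q, Fin K → Circle)), ∀ s, r (i s) = s) ∧
      ¬ SimplyConnectedSpace (connectedComponent q) ∧
      ¬ ContractibleSpace (connectedComponent q) := by
  obtain ⟨M, rfl⟩ : ∃ M, K = M + 1 := ⟨K - 1, by omega⟩
  have hn' : 6 * M + 7 ≤ n := by omega
  refine ⟨lv n (LL M n), fun i => LL_pos hn' i i.2, generic hn', fX M n hn' 1,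
    ⟨inc M n hn', ret M n hn', ret_inc hn'⟩, not_simply hn', fun h => not_simply hn' ?_⟩
  exact inferInstance

end Pool.Agent.KS6_36.PG
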