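import Pool.Agent.KS6_36.PG.Clopen

/-!
# The family of polygons

`M + 1` congruent knotted cores are strung on the third coordinate axis; the core number `j` is
turned about this axis by `t j`. The polygon is closed by two long sides meeting at a far point of
the second coordinate axis and by short sides on this axis.
-/

set_option autoImplicit false

namespace Pool.Agent.KS6_36.PG

open Pool.Agent.Results.MP_e82153_gt.Knotted

/-- The horizontal coordinates of the vertices of a core. -/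
noncomputable def zt : ℕ → ℂ
  | 0 => 0
  | 1 => ⟨16, 8 / 17⟩
  | 2 => ⟨14, -30 / 17⟩
  | 3 => ⟨14, 30 / 17⟩
  | 4 => ⟨16, -8 / 17⟩
  | _ => 0

/-- The heights of the vertices of a core. -/
noncomputable def ht : ℕ → ℝ
  | 0 => 0
  | 1 => 304 / 17
  | 2 => 305 / 17
  | 3 => 273 / 17
  | 4 => 274 / 17
  | _ => 34

/-- The point with the horizontal coordinate `z` and the height `h`. -/
noncomputable def pt (z : ℂ) (h : ℝ) : E3 := !₂[z.re, z.im, h]

@[simp] lemma pt_0 (z : ℂ) (h : ℝ) : pt z h 0 = z.re := rfl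
@[simp] lemma pt_1 (z : ℂ) (h : ℝ) : pt z h 1 = z.im := rfl
@[simp] lemma pt_2 (z : ℂ) (h : ℝ) : pt z h 2 = h := rfl

lemma pt_zero : pt 0 0 = 0 := by
  ext i
  fin_cases i <;> simp [pt]

lemma pt_sub (z z' : ℂ) (h h' : ℝ) : pt z h - pt z' h' = pt (z - z') (h - h') := by
  ext i
  fin_cases i <;> simp [pt]

lemma norm_pt {z : ℂ} {h l : ℝ} (hl : 0 ≤ l) (e : Complex.normSq z + h ^ 2 = l ^ 2) :
    ‖pt z h‖ = l := by
  refine norm_eq_of_sq hl ?_
  rw [← e, Complex.normSq_apply]
  simp only [pt_0, pt_1, pt_2]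
  ring

/-- The height of the last vertex of the last core. -/
noncomputable def BB (M : ℕ) : ℝ := 34 + 100 * M

/-- The second coordinate of the far vertex. -/
noncomputable def YY (M n : ℕ) : ℝ := 10 * n * BB M

/-- The second coordinates of the closing vertices. -/
noncomputable def yf (M n k : ℕ) : ℝ := if k = 6 * M + 6 then YY M n else (n : ℝ) - k

/-- The vertices. -/
noncomputable def Vx (M n : ℕ) (t : ℕ → ℂ) (k : ℕ) : E3 :=
  if k ≤ 6 * M + 5 then pt (t (k / 6) * zt (k % 6)) (100 * (k / 6 : ℕ) + ht (k % 6))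
  else pt ⟨0, yf M n k⟩ 0

/-- The lengths of the sides of a core and of the side after it. -/
noncomputable def cl : ℕ → ℝ
  | 0 => 24
  | 1 => 3
  | 2 => 4
  | 3 => 3
  | 4 => 24
  | _ => 66

/-- The side lengths. -/
noncomputable def LL (M n k : ℕ) : ℝ :=
  if k < 6 * M + 5 then cl (k % 6)
  else if k = 6 * M + 5 then BB M * √((10 * n : ℕ) ^ 2 + 1 : ℕ)
  else if k = 6 * M + 6 then YY M n - ((n : ℝ) - (6 * M + 7))
  else 1

section

variable {M n : ℕ} {t : ℕ → ℂ}

lemma Vx_core {j i : ℕ} (hj : j ≤ M) (hi : i < 6) :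
    Vx M n t (6 * j + i) = pt (t j * zt i) (100 * j + ht i) := by
  have e1 : (6 * j + i) / 6 = j := by omega
  have e2 : (6 * j + i) % 6 = i := by omega
  rw [Vx, if_pos (by omega), e1, e2]

lemma Vx_far {k : ℕ} (hk : 6 * M + 6 ≤ k) : Vx M n t k = pt ⟨0, yf M n k⟩ 0 := by
  rw [Vx, if_neg (by omega)]

lemma Vx_zero : Vx M n t 0 = 0 := by
  have := @Vx_core M n t 0 0 (by omega) (by omega)
  rw [show 6 * 0 + 0 = 0 from rfl] at this
  rw [this]
  simp only [zt, ht, mul_zero, CharP.cast_eq_zero, add_zero]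
  exact pt_zero

lemma yf_U : yf M n (6 * M + 6) = YY M n := by rw [yf, if_pos rfl]

lemma yf_far {k : ℕ} (hk : 6 * M + 7 ≤ k) : yf M n k = (n : ℝ) - k := by
  rw [yf, if_neg (by omega)]

lemma Vx_last (hn : 6 * M + 7 ≤ n) : Vx M n t n = 0 := by
  rw [Vx_far (by omega), yf_far hn, sub_self]
  exact pt_zero

lemma LL_core {j i : ℕ} (hi : i < 6) (h : 6 * j + i < 6 * M + 5) :
    LL M n (6 * j + i) = cl i := by
  have e2 : (6 * j + i) % 6 = i := by omega
  rw [LL, if_pos h, e2]

lemma LL_up : LL M n (6 * M + 5) = BB M * √((10 * n : ℕ) ^ 2 + 1 : ℕ) := by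
  rw [LL, if_neg (by omega), if_pos rfl]

lemma LL_down : LL M n (6 * M + 6) = YY M n - ((n : ℝ) - (6 * M + 7)) := by
  rw [LL, if_neg (by omega), if_neg (by omega), if_pos rfl]

lemma LL_far {k : ℕ} (hk : 6 * M + 7 ≤ k) : LL M n k = 1 := by
  rw [LL, if_neg (by omega), if_neg (by omega), if_neg (by omega)]

lemma BB_ge : 34 ≤ BB M := by
  unfold BB
  have : (0 : ℝ) ≤ M := Nat.cast_nonneg M
  linarith

lemma YY_ge : 340 * (n : ℝ) ≤ YY M n := by
  unfold YY
  have h1 := @BB_ge M
  have h2 : (0 : ℝ) ≤ n := Nat.cast_nonneg n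
  nlinarith

lemma sqrt_ge : (10 * n : ℝ) ≤ √((10 * n : ℕ) ^ 2 + 1 : ℕ) := by
  apply Real.le_sqrt_of_sq_le
  push_cast
  linarith

lemma sqrt_pos : 0 < √((10 * n : ℕ) ^ 2 + 1 : ℕ) := by
  apply Real.sqrt_pos.mpr
  positivity

lemma LL_up_ge : YY M n ≤ LL M n (6 * M + 5) := by
  rw [LL_up, YY]
  have h1 := @BB_ge M
  have h2 := @sqrt_ge n
  nlinarith

lemma cl_pos (i : ℕ) : 0 < cl i := by
  unfold cl
  split <;> norm_num

lemma cl_le (i : ℕ) : cl i ≤ 66 := by
  unfold cl
  split <;> norm_num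

lemma LL_down_pos (hn : 6 * M + 7 ≤ n) : 0 < YY M n - ((n : ℝ) - (6 * M + 7)) := by
  have h1 := @YY_ge M n
  have h2 : (0 : ℝ) ≤ M := Nat.cast_nonneg M
  have h3 : (0 : ℝ) ≤ n := Nat.cast_nonneg n
  linarith

lemma LL_pos (hn : 6 * M + 7 ≤ n) (k : ℕ) (_hk : k < n) : 0 < LL M n k := by
  by_cases h1 : k < 6 * M + 5
  · rw [LL, if_pos h1]
    exact cl_pos _
  by_cases h2 : k = 6 * M + 5
  · subst h2
    rw [LL_up]
    have := @BB_ge M
    have := @sqrt_pos n
    positivity
  by_cases h3 : k = 6 * M + 6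
  · subst h3
    rw [LL_down]
    exact LL_down_pos hn
  · rw [LL_far (by omega)]
    norm_num

lemma coreAt (hn : 6 * M + 7 ≤ n) {j : ℕ} (hj : j ≤ M) : CoreAt n (LL M n) (6 * j) where
  hn := by omega
  l0 := LL_core (j := j) (i := 0) (by omega) (by omega)
  l1 := LL_core (i := 1) (by omega) (by omega)
  l2 := LL_core (i := 2) (by omega) (by omega)
  l3 := LL_core (i := 3) (by omega) (by omega)
  l4 := LL_core (i := 4) (by omega) (by omega)

lemma between {j : ℕ} (hj : j < M) : LL M n (6 * j + 5) = 66 :=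
  LL_core (i := 5) (by omega) (by omega)

lemma normSq_t {t : ℕ → ℂ} {j : ℕ} (ht : ‖t j‖ = 1) (z z' : ℂ) :
    Complex.normSq (t j * z - t j * z') = Complex.normSq (z - z') := by
  rw [← mul_sub, Complex.normSq_mul, Complex.normSq_eq_norm_sq (t j), ht]
  norm_num

lemma norm_Vx (hn : 6 * M + 7 ≤ n) (ht1 : ∀ j, ‖t j‖ = 1) {k : ℕ} (_hk : k < n) :
    ‖Vx M n t (k + 1) - Vx M n t k‖ = LL M n k := by
  by_cases h1 : k < 6 * M + 5
  · obtain ⟨j, i, hi, rfl⟩ : ∃ j i, i < 6 ∧ k = 6 * j + i :=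
      ⟨k / 6, k % 6, Nat.mod_lt _ (by norm_num), by omega⟩
    have hj : j ≤ M := by omega
    rw [LL_core hi h1]
    by_cases h5 : i = 5
    · subst h5
      have e : Vx M n t (6 * j + 5 + 1) = Vx M n t (6 * (j + 1) + 0) := by
        congr 1
      rw [e, Vx_core (by omega) (by omega), Vx_core hj (by omega), pt_sub]
      refine norm_pt (by norm_num [cl]) ?_
      simp only [zt, ht, cl]
      push_cast
      simp
      ring
    · have e : Vx M n t (6 * j + i + 1) = Vx M n t (6 * j + (i + 1)) := rfl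
      rw [e, Vx_core hj (by omega), Vx_core hj hi, pt_sub]
      refine norm_pt (cl_pos i).le ?_
      rw [normSq_t (ht1 j)]
      have e2 : (100 * (j : ℝ) + ht (i + 1) - (100 * j + ht i))
          = ht (i + 1) - ht i := by ring
      rw [e2]
      have hi5 : i < 5 := by omega
      interval_cases i <;> simp only [zt, ht, cl, Complex.normSq_apply, Complex.sub_re,
        Complex.sub_im, Complex.zero_re, Complex.zero_im] <;> norm_num
  by_cases h2 : k = 6 * M + 5
  · subst h2
    rw [Vx_far (k := 6 * M + 5 + 1) (by omega), Vx_core le_rfl (by omega), pt_sub, LL_up,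
      show 6 * M + 5 + 1 = 6 * M + 6 from rfl, yf_U]
    refine norm_pt ?_ ?_
    · have := @BB_ge M
      have := @sqrt_pos n
      positivity
    · rw [mul_pow, Real.sq_sqrt (by positivity)]
      simp only [zt, ht, mul_zero, Complex.normSq_apply, Complex.sub_re, Complex.sub_im,
        Complex.zero_re, Complex.zero_im, YY, BB]
      push_cast
      ring
  by_cases h3 : k = 6 * M + 6
  · subst h3
    rw [Vx_far (by omega), Vx_far (by omega), pt_sub, LL_down, yf_U, yf_far (by omega)]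
    refine norm_pt (LL_down_pos hn).le ?_
    simp only [Complex.normSq_apply, Complex.sub_re, Complex.sub_im]
    push_cast
    ring
  · rw [Vx_far (by omega), Vx_far (by omega), pt_sub, LL_far (by omega), yf_far (by omega),
      yf_far (by omega)]
    refine norm_pt (by norm_num) ?_
    simp only [Complex.normSq_apply, Complex.sub_re, Complex.sub_im]
    push_cast
    ring

/-- The sum of the lengths of the other sides is less than the sum of the two long ones. -/
lemma long_sides (hn : 6 * M + 7 ≤ n) : ((6 * M + 5 : ℕ) : ℝ) * 66 + (n - (6 * M + 7) : ℕ) * 66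
    < LL M n (6 * M + 5) + LL M n (6 * M + 6) := by
  have h1 := @YY_ge M n
  have h2 := @LL_up_ge M n
  have h3 : ((6 * M + 5 : ℕ) : ℝ) + (n - (6 * M + 7) : ℕ) ≤ n := by
    exact_mod_cast (by omega : 6 * M + 5 + (n - (6 * M + 7)) ≤ n)
  have h4 : (0 : ℝ) ≤ M := Nat.cast_nonneg M
  have h5 : (7 : ℝ) ≤ n := by exact_mod_cast (by omega : 7 ≤ n)
  rw [LL_down]
  nlinarith

lemma LL_le {k : ℕ} (hk : k < 6 * M + 5 ∨ 6 * M + 7 ≤ k) : LL M n k ≤ 66 := by
  rcases hk with h | h
  · rw [LL, if_pos h]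
    exact cl_le _
  · rw [LL_far h]
    norm_num

end

end Pool.Agent.KS6_36.PG
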